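import Pool.Agent.H659R3.MorseLim.Cuts

/-! # Retracts with cut points: the limit set is the Morse boundary -/

set_option autoImplicit false

namespace Pool.Agent.H659R3.MorseLim

open Topology

section

variable {G : Type} [Group G] {A : FinGen G}

theorem isOpen_boundary_iff (U : Set (MorseBoundary A)) :
    IsOpen U ↔ ∀ (N : Gauge) (γ : NRay A N), γ.cls ∈ U →
      ∃ n : ℕ, ∀ γ' : NRay A N, (∀ k ≤ n, γ'.path k = γ.path k) → γ'.cls ∈ U := by
  classical
  rw [isOpen_iSup_iff]
  refine forall_congr' fun N => ?_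
  rw [isOpen_coinduced]
  refine (@isOpen_induced_iff _ _ (@Pi.topologicalSpace ℕ (fun _ => G) fun _ => ⊥) _ _).trans ?_
  constructor
  · rintro ⟨V, hV, hVU⟩ γ hγ
    have hγV : γ.path ∈ V := by
      have : γ ∈ (fun γ : NRay A N => γ.path) ⁻¹' V := by rw [hVU]; exact hγ
      exact this
    rw [@isOpen_pi_iff ℕ (fun _ => G) (fun _ => ⊥)] at hV
    obtain ⟨I, u, hu, huV⟩ := hV γ.path hγV
    refine ⟨I.sup id, fun γ' h => ?_⟩
    have : γ' ∈ (fun γ : NRay A N => γ.path) ⁻¹' V := huV (fun i hi => by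
       change γ'.path i ∈ u i
       rw [h i (Finset.le_sup (f := id) hi)]; exact (hu i hi).2)
    rw [hVU] at this
    exact this
  · intro h
    refine ⟨⋃ γ : {γ : NRay A N // γ.cls ∈ U}, {f | ∀ k ≤ (h γ.1 γ.2).choose, f k = γ.1.path k},
      ?_, ?_⟩
    · refine @isOpen_iUnion _ _ (_) _ fun γ => ?_
      have : {f : ℕ → G | ∀ k ≤ (h γ.1 γ.2).choose, f k = γ.1.path k} =
          (Set.Iic (h γ.1 γ.2).choose).pi fun k => {γ.1.path k} := by
        ext f; simp [Set.mem_pi]
      rw [this]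
      exact @isOpen_set_pi _ _ (fun _ => ⊥) _ _ (Set.finite_Iic _) fun k _ => trivial
    · ext γ
      simp only [Set.mem_preimage, Set.mem_iUnion, Set.mem_ofPred_eq]
      constructor
      · rintro ⟨γ', h'⟩
        exact (h γ'.1 γ'.2).choose_spec γ h'
      · intro hγ
        exact ⟨⟨γ, hγ⟩, fun k _ => rfl⟩

end

variable {G : Type} [Group G] {A : FinGen G} {H : Subgroup G} {B : FinGen H}

/-- The hypotheses on a subgroup `H` used in the proof: `H` is a retract of `G` by a retraction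
which does not increase lengths, and Morse rays of `H` have cut points in `G`. -/
structure RetractHyp (A : FinGen G) (B : FinGen H) (r : G →* H) : Prop where
  retr : ∀ h : H, r h = h
  len_r : ∀ g, B.len (r g) ≤ A.len g
  len_i : ∀ h : H, A.len (h : G) ≤ B.len h
  cut : ∀ N : Gauge, ∃ b : ℕ, ∀ γ : ℕ → H, γ 0 = 1 → IsGeod B Set.univ γ →
    IsMorse B N Set.univ γ → CutGap A b (fun n => (γ n : G))

namespace RetractHyp

variable {r : G →* H} (R : RetractHyp A B r)

include R

theorem len_eq (h : H) : A.len (h : G) = B.len h :=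
  le_antisymm (R.len_i h) (by simpa [R.retr h] using R.len_r h)

theorem dist_eq (h k : H) : A.dist (h : G) k = B.dist h k := by
  have := R.len_eq (h⁻¹ * k)
  simpa [FinGen.dist] using this

theorem dist_r (g k : G) : B.dist (r g) (r k) ≤ A.dist g k := by
  have := R.len_r (g⁻¹ * k)
  simpa [FinGen.dist] using this

theorem geod_incl {T : Set ℕ} {γ : ℕ → H} :
    IsGeod A T (fun n => (γ n : G)) ↔ IsGeod B T γ := by
  simp only [IsGeod, R.dist_eq]

theorem morse_restrict {N : Gauge} {T : Set ℕ} {γ : ℕ → H}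
    (h : IsMorse A N T (fun n => (γ n : G))) : IsMorse B N T γ := by
  rintro lam eps L hlam heps hL q hq ⟨m, hm, h0⟩ ⟨n, hn, h1⟩ t ht
  obtain ⟨k, hk, hd⟩ := h lam eps L hlam heps hL (fun s => (q s : G)) (by
    intro s hs t ht
    rw [R.dist_eq]
    exact hq s hs t ht) ⟨m, hm, by rw [h0]⟩ ⟨n, hn, by rw [h1]⟩ t ht
  rw [R.dist_eq] at hd
  exact ⟨k, hk, hd⟩

theorem morse_incl (N : Gauge) : ∃ N' : Gauge, ∀ γ : ℕ → H, γ 0 = 1 → IsGeod B Set.univ γ →
    IsMorse B N Set.univ γ → IsMorse A N' Set.univ (fun n => (γ n : G)) ∧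
      ∀ l, IsMorse A N' (Set.Iic l) (fun n => (γ n : G)) := by
  obtain ⟨b, hb⟩ := R.cut N
  refine ⟨cutGauge b, fun γ h0 hg hM => ?_⟩
  have hc := hb γ h0 hg hM
  have hg' := R.geod_incl.2 hg
  refine ⟨isMorse_of_cutGap (fun _ _ _ _ => trivial) hg' hc, fun l =>
    isMorse_of_cutGap (fun m hm k hk => le_trans hk hm) (fun m _ n _ => hg' m trivial n trivial)
      hc⟩

/-- The inclusion on Morse rays. -/
def inclRay (γ : MorseRay B) : MorseRay A :=
  ⟨fun n => (γ.path n : G), by rw [γ.zero]; rfl, R.geod_incl.2 γ.geod, by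
    obtain ⟨N, hN⟩ := γ.morse
    obtain ⟨N', hN'⟩ := R.morse_incl N
    exact ⟨N', (hN' γ.path γ.zero γ.geod hN).1⟩⟩

theorem finHaus_iff {γ γ' : ℕ → H} :
    FinHaus A (fun n => (γ n : G)) (fun n => (γ' n : G)) ↔ FinHaus B γ γ' := by
  simp only [FinHaus, R.dist_eq]

/-- The map of Morse boundaries induced by the inclusion. -/
def f : MorseBoundary B → MorseBoundary A :=
  Quotient.lift (fun γ => (R.inclRay γ).cls) (by
    intro γ γ' h
    exact Quotient.sound (s := raySetoid A) (R.finHaus_iff.2 h))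

theorem f_cls (γ : MorseRay B) : R.f γ.cls = (R.inclRay γ).cls := rfl

theorem f_cls_iff (γ : MorseRay B) (γ' : MorseRay A) :
    R.f γ.cls = γ'.cls ↔ FinHaus A (fun n => (γ.path n : G)) γ'.path := by
  rw [f_cls]
  exact Quotient.eq (r := raySetoid A)

theorem f_injective : Function.Injective R.f := by
  intro x y
  refine Quotient.inductionOn₂ (s₁ := raySetoid B) (s₂ := raySetoid B) x y fun γ γ' h => ?_
  have h' : FinHaus A (fun n => (γ.path n : G)) (fun n => (γ'.path n : G)) :=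
    (R.f_cls_iff γ (R.inclRay γ')).1 h
  exact Quotient.sound (s := raySetoid B) (R.finHaus_iff.1 h')

theorem f_continuous : Continuous R.f := by
  rw [continuous_def]
  intro U hU
  rw [isOpen_boundary_iff] at hU ⊢
  intro N γ hγ
  obtain ⟨N', hN'⟩ := R.morse_incl N
  have hinc : ∀ γ : NRay B N, ∃ δ : NRay A N', (∀ n, δ.path n = γ.path n) ∧ δ.cls = R.f γ.cls :=
    fun γ => ⟨⟨fun n => (γ.path n : G), by rw [γ.zero]; rfl, R.geod_incl.2 γ.geod,
      (hN' γ.path γ.zero γ.geod γ.morse).1⟩, fun _ => rfl, rfl⟩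
  obtain ⟨δ, hδ, hδc⟩ := hinc γ
  obtain ⟨n, hn⟩ := hU N' δ (by rw [hδc]; exact hγ)
  refine ⟨n, fun γ' h => ?_⟩
  obtain ⟨δ', hδ', hδc'⟩ := hinc γ'
  rw [Set.mem_preimage, ← hδc']
  exact hn δ' fun k hk => by rw [hδ', hδ, h k hk]

/-- The retraction of a geodesic of `G` with endpoints in `H` is geodesic. -/
theorem r_geod {l : ℕ} {α : ℕ → G} (hα : IsGeod A (Set.Iic l) α) (h0 : α 0 = 1)
    (hl : α l ∈ H) : IsGeod B (Set.Iic l) (fun n => r (α n)) := by
  apply isGeod_of_nat
  intro m hm n hn hmn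
  have hm' : m ≤ l := hm
  have hn' : n ≤ l := hn
  have a0 : B.len (r (α l)) = l := by
    have := R.len_eq ⟨α l, hl⟩
    have h1 : r (α l) = ⟨α l, hl⟩ := R.retr ⟨α l, hl⟩
    rw [h1, ← this, ← A.dist_one_left, ← h0]
    exact dist_zero_eq hα (Nat.zero_le l) (le_refl l)
  have a1 := R.dist_r (α m) (α n)
  rw [hα.nat hm hn hmn] at a1
  have a2 := R.dist_r (α 0) (α m)
  rw [dist_zero_eq hα (Nat.zero_le l) hm, h0, map_one] at a2
  have a3 := R.dist_r (α n) (α l)
  rw [hα.nat hn (le_refl l) hn'] at a3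
  have t1 := B.dist_triangle 1 (r (α m)) (r (α l))
  have t2 := B.dist_triangle (r (α m)) (r (α n)) (r (α l))
  rw [B.dist_one_left, a0] at t1
  omega

/-- If a geodesic ray `β` of `G` is `N`-Morse and `r ∘ β` is geodesic and `2 N(1,1)`-close to
`β`, then `r ∘ β` is a Morse ray of `H` with a gauge depending on `N` only, and defines the same
point. -/
theorem retr_ray {N : Gauge} (β : NRay A N) (hg : IsGeod B Set.univ (fun n => r (β.path n)))
    (hd : ∀ n, (A.dist (r (β.path n) : G) (β.path n) : ℝ) ≤ 2 * N 1 1) :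
    ∃ ρ : NRay B (fun lam eps => N lam (eps + 2 * (2 * N 1 1)) + 2 * N 1 1),
      (∀ n, ρ.path n = r (β.path n)) ∧ R.f ρ.cls = β.cls := by
  have hM : IsMorse A (fun lam eps => N lam (eps + 2 * (2 * N 1 1)) + 2 * N 1 1) Set.univ
      (fun n => ((r (β.path n) : H) : G)) := β.morse.stable fun m _ => hd m
  refine ⟨⟨fun n => r (β.path n), by rw [β.zero, map_one], hg, R.morse_restrict hM⟩, fun _ => rfl, ?_⟩
  refine (R.f_cls_iff _ β.ray).2 ?_
  obtain ⟨D, hD⟩ := exists_nat_ge (2 * N 1 1)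
  exact finHaus_of_pointwise (D := D) fun n => by
    have := (hd n).trans hD
    exact_mod_cast this

theorem key_cut {N : Gauge} (β : NRay A N) (x : MorseBoundary B) (hx : R.f x = β.cls) :
    IsGeod B Set.univ (fun n => r (β.path n)) ∧
      ∀ n, (A.dist (r (β.path n) : G) (β.path n) : ℝ) ≤ 2 * N 1 1 := by
  obtain ⟨γ, rfl⟩ : ∃ γ : MorseRay B, γ.cls = x := Quotient.exists_rep (s := raySetoid B) x
  have hF : FinHaus A (fun n => (γ.path n : G)) β.path := (R.f_cls_iff γ β.ray).1 hx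
  have hγg := R.geod_incl.2 γ.geod
  have hβg := β.geod
  obtain ⟨D, hD⟩ := hF.pointwise hγg hβg (by rw [γ.zero, β.zero]; rfl)
  obtain ⟨N₀, hN₀⟩ := γ.morse
  obtain ⟨b, hb⟩ := R.cut N₀
  have hc := hb γ.path γ.zero γ.geod hN₀
  -- `β` passes through the cut points of `γ`
  have hpass : ∀ n : ℕ, ∃ t, n ≤ t ∧ β.path t ∈ H := by
    intro n
    obtain ⟨t, ht, -, V, hV, hV1, hV2⟩ := hc (n + 1)
    refine ⟨t, by omega, ?_⟩
    have e0 : β.path 0 ∈ V := by
      rw [β.zero]
      have := hV1 0 (by omega)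
      simp only [γ.zero] at this
      exact this
    have e1 : ∃ m, β.path m ∉ V := by
      refine ⟨t + D + 1, fun h => ?_⟩
      have h1 := hV _ h _ (hV2 (t + D + 1) (by omega))
      simp only at h1
      have h2 := hD (t + D + 1)
      rw [A.dist_comm] at h2
      have h3 := hγg.nat (Set.mem_univ t) (Set.mem_univ (t + D + 1)) (by omega)
      omega
    classical
    obtain ⟨m, hm⟩ : ∃ m, m = Nat.find e1 := ⟨_, rfl⟩
    have hm1 : β.path m ∉ V := by rw [hm]; exact Nat.find_spec e1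
    have hm0 : m ≠ 0 := by
      rintro rfl
      exact hm1 e0
    obtain ⟨k, rfl⟩ := Nat.exists_eq_succ_of_ne_zero hm0
    have hk : β.path k ∈ V := by
      by_contra h
      have := Nat.find_min' e1 h
      omega
    have h1 := hV _ hk _ hm1
    have h2 := hβg.nat (Set.mem_univ k) (Set.mem_univ (k + 1)) (by omega)
    -- one of the two distances vanishes
    have h3 : ∃ j, β.path j = γ.path t := by
      rcases Nat.eq_zero_or_pos (A.dist (β.path k) (γ.path t)) with h | h
      · exact ⟨k, A.eq_of_dist h⟩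
      · refine ⟨k + 1, (A.eq_of_dist ?_).symm⟩
        simp only [Nat.succ_eq_add_one] at h1
        omega
    obtain ⟨j, hj⟩ := h3
    have h4 : j = t := by
      have a1 := dist_zero_eq hβg (Set.mem_univ 0) (Set.mem_univ j)
      have a2 := dist_zero_eq hγg (Set.mem_univ 0) (Set.mem_univ t)
      rw [hj, β.zero] at a1
      rw [γ.zero] at a2
      simp only [OneMemClass.coe_one] at a2
      omega
    rw [← h4, hj]
    exact (γ.path t).2
  have hgeo : ∀ t, β.path t ∈ H → IsGeod B (Set.Iic t) (fun n => r (β.path n)) := fun t ht =>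
    R.r_geod (fun m _ n _ => hβg m trivial n trivial) β.zero ht
  constructor
  · intro m _ n _
    obtain ⟨t, ht, htH⟩ := hpass (max m n)
    exact hgeo t htH m (le_trans (le_max_left _ _) ht) n (le_trans (le_max_right _ _) ht)
  · intro n
    obtain ⟨t, ht, htH⟩ := hpass n
    have hg := R.geod_incl.2 (hgeo t htH)
    refine geo_close (T := Set.univ) (fun _ _ _ _ => trivial) hβg β.morse (t := t) trivial hg
      ?_ ?_ ht
    · simp only [β.zero, map_one]; rfl
    · have := R.retr ⟨β.path t, htH⟩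
      simp only at this
      simp only [this]

theorem f_closedMap : IsClosedMap R.f := by
  intro F hF
  rw [← isOpen_compl_iff, isOpen_boundary_iff] at hF ⊢
  intro N β hβ
  by_contra hcon
  push Not at hcon
  -- rays with class in `f '' F` agreeing with `β` for a long time
  have hcon' : ∀ n, ∃ β' : NRay A N, (∀ k ≤ n, β'.path k = β.path k) ∧ ∃ x ∈ F, R.f x = β'.cls := by
    intro n
    obtain ⟨β', h1, h2⟩ := hcon n
    rw [Set.mem_compl_iff, not_not] at h2
    obtain ⟨x, hx, h3⟩ := h2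
    exact ⟨β', h1, x, hx, h3⟩
  have hg : IsGeod B Set.univ (fun n => r (β.path n)) := by
    intro m _ n _
    obtain ⟨β', h1, x, hx, h3⟩ := hcon' (max m n)
    have := (R.key_cut β' x h3).1 m trivial n trivial
    simp only [h1 m (le_max_left _ _), h1 n (le_max_right _ _)] at this
    exact this
  have hd : ∀ n, (A.dist (r (β.path n) : G) (β.path n) : ℝ) ≤ 2 * N 1 1 := by
    intro n
    obtain ⟨β', h1, x, hx, h3⟩ := hcon' n
    have := (R.key_cut β' x h3).2 n
    rwa [h1 n le_rfl] at this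
  obtain ⟨ρ, hρ, hρc⟩ := R.retr_ray β hg hd
  have hρF : ρ.cls ∈ Fᶜ := by
    intro h
    exact hβ ⟨_, h, hρc⟩
  obtain ⟨n, hn⟩ := hF _ ρ hρF
  obtain ⟨β', h1, x, hx, h3⟩ := hcon' n
  obtain ⟨hg', hd'⟩ := R.key_cut β' x h3
  obtain ⟨ρ', hρ', hρc'⟩ := R.retr_ray β' hg' hd'
  have := hn ρ' fun k hk => by rw [hρ', hρ, h1 k hk]
  apply this
  have e : ρ'.cls = x := R.f_injective (by rw [hρc', h3])
  rw [e]
  exact hx

theorem range_f : Set.range R.f = limitSet A H := by
  apply Set.Subset.antisymm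
  · rintro ξ ⟨x, rfl⟩
    obtain ⟨γ, rfl⟩ : ∃ γ : MorseRay B, γ.cls = x := Quotient.exists_rep (s := raySetoid B) x
    obtain ⟨N, hN⟩ := γ.morse
    obtain ⟨N', hN'⟩ := R.morse_incl N
    obtain ⟨h1, h2⟩ := hN' γ.path γ.zero γ.geod hN
    have hg := R.geod_incl.2 γ.geod
    have hlen : ∀ n, A.len (γ.path n : G) = n := by
      intro n
      have := dist_zero_eq hg (Set.mem_univ 0) (Set.mem_univ n)
      rw [γ.zero] at this
      rw [← A.dist_one_left]
      exact this
    refine ⟨N', fun n => (γ.path n : G), fun _ k => (γ.path k : G), ⟨fun n => (γ.path n : G), by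
      rw [γ.zero]; rfl, hg, h1⟩, fun n => ⟨(γ.path n).2, by simp only [γ.zero]; rfl,
        by simp only [hlen], fun a _ b _ => hg a trivial b trivial, h2 _⟩, fun k => ⟨k, fun n hn =>
        ⟨by simp only [hlen]; exact hn, fun _ _ => rfl⟩⟩, rfl⟩
  · rintro ξ ⟨N, h, α, β, h1, h2, rfl⟩
    have hg : ∀ n, IsGeod B (Set.Iic (A.len (h n))) (fun k => r (α n k)) := fun n =>
      R.r_geod (h1 n).2.2.2.1 (h1 n).2.1 (by rw [(h1 n).2.2.1]; exact (h1 n).1)
    have hβg : IsGeod B Set.univ (fun n => r (β.path n)) := by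
      intro m _ n _
      obtain ⟨n₀, hn₀⟩ := h2 (max m n)
      obtain ⟨a1, a2⟩ := hn₀ n₀ le_rfl
      have := hg n₀ m (le_trans (le_max_left _ _) a1) n (le_trans (le_max_right _ _) a1)
      simp only [a2 m (le_max_left _ _), a2 n (le_max_right _ _)] at this
      exact this
    have hβd : ∀ n, (A.dist (r (β.path n) : G) (β.path n) : ℝ) ≤ 2 * N 1 1 := by
      intro n
      obtain ⟨n₀, hn₀⟩ := h2 n
      obtain ⟨a1, a2⟩ := hn₀ n₀ le_rfl
      have h1' := h1 n₀
      have := geo_close (T := Set.Iic (A.len (h n₀))) (fun m hm k hk => le_trans hk hm)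
        h1'.2.2.2.1 h1'.2.2.2.2 (t := A.len (h n₀)) (Set.mem_Iic.2 le_rfl) (R.geod_incl.2 (hg n₀))
        (by simp only [h1'.2.1, map_one]; rfl) (by
          simp only [h1'.2.2.1]
          have := R.retr ⟨h n₀, h1'.1⟩
          simp only at this
          simp only [this]) (m := n) a1
      rw [a2 n le_rfl] at this
      exact this
    obtain ⟨ρ, hρ, hρc⟩ := R.retr_ray β hβg hβd
    exact ⟨_, hρc⟩

/-- Under the hypotheses `RetractHyp`, the limit set of `H` is the Morse boundary of `H`. -/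
theorem limitSet_isMorseBoundary : LimitSetIsMorseBoundary A H B := by
  have he : IsClosedEmbedding R.f :=
    IsClosedEmbedding.of_continuous_injective_isClosedMap R.f_continuous R.f_injective
      R.f_closedMap
  refine ⟨he.isEmbedding.toHomeomorph.trans (Homeomorph.setCongr R.range_f), fun γ γ' => ?_⟩
  exact R.f_cls_iff γ γ'

end RetractHyp

end Pool.Agent.H659R3.MorseLim
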