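import Pool.Agent.H659R3.MorseLim.Defs

/-! # Cut points, and geodesics with cut points at bounded gaps are Morse -/

set_option autoImplicit false

namespace Pool.Agent.H659R3.MorseLim

variable {G : Type} [Group G] {A : FinGen G}

/-- The point `u` separates (metrically) `V` from its complement. -/
def IsCut (A : FinGen G) (u : G) (V : Set G) : Prop :=
  ∀ w ∈ V, ∀ w' ∉ V, A.dist w u + A.dist u w' ≤ A.dist w w'

/-- The path `γ` has cut points with gaps at most `b`. -/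
def CutGap (A : FinGen G) (b : ℕ) (γ : ℕ → G) : Prop :=
  ∀ n, ∃ t, n ≤ t ∧ t ≤ n + b ∧ ∃ V : Set G, IsCut A (γ t) V ∧ (∀ m < t, γ m ∈ V) ∧
    ∀ m, t < m → γ m ∉ V

theorem crossing {lam eps L : ℝ} {q : ℝ → G} (hlam : 1 ≤ lam) (hL : 0 ≤ L)
    (hq : IsQuasiGeod A lam eps L q) {u : G} {V : Set G} (hc : IsCut A u V) (h0 : q 0 ∈ V)
    (h1 : q L ∉ V) : ∃ s ∈ Set.Icc 0 L, (A.dist (q s) u : ℝ) ≤ lam + eps := by
  classical
  have hex : ∃ n : ℕ, q (min (n:ℝ) L) ∉ V := by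
    obtain ⟨n, hn⟩ := exists_nat_ge L
    exact ⟨n, by rwa [min_eq_right hn]⟩
  obtain ⟨n, hn⟩ : ∃ n, n = Nat.find hex := ⟨_, rfl⟩
  have hn1 : q (min (n:ℝ) L) ∉ V := by rw [hn]; exact Nat.find_spec hex
  have hn0 : n ≠ 0 := by
    intro h
    apply hn1
    rw [h]
    simpa [hL] using h0
  obtain ⟨k, hk⟩ := Nat.exists_eq_succ_of_ne_zero hn0
  have hk' : q (min (k:ℝ) L) ∈ V := by
    by_contra h
    have := Nat.find_min' hex h
    omega
  have m1 : min (k:ℝ) L ∈ Set.Icc 0 L := ⟨le_min (Nat.cast_nonneg k) hL, min_le_right _ _⟩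
  have m2 : min (n:ℝ) L ∈ Set.Icc 0 L := ⟨le_min (Nat.cast_nonneg n) hL, min_le_right _ _⟩
  refine ⟨min (k:ℝ) L, m1, ?_⟩
  have e := hc _ hk' _ hn1
  have f := (hq _ m1 _ m2).2
  have g : |min (k:ℝ) L - min (n:ℝ) L| ≤ 1 := by
    refine (abs_min_sub_min_le_max _ _ _ _).trans ?_
    rw [hk]; push_cast
    simp
  have e' : (A.dist (q (min (k:ℝ) L)) u : ℝ) + A.dist u (q (min (n:ℝ) L)) ≤
      A.dist (q (min (k:ℝ) L)) (q (min (n:ℝ) L)) := by exact_mod_cast e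
  have pos : (0:ℝ) ≤ A.dist u (q (min (n:ℝ) L)) := Nat.cast_nonneg _
  nlinarith

theorem IsGeod.nat {T : Set ℕ} {γ : ℕ → G} (h : IsGeod A T γ) {m n : ℕ} (hm : m ∈ T) (hn : n ∈ T)
    (hmn : m ≤ n) : A.dist (γ m) (γ n) = n - m := by
  have := h m hm n hn
  rw [abs_sub_comm, abs_of_nonneg (by linarith [(by exact_mod_cast hmn : (m:ℤ) ≤ n)])] at this
  omega

theorem isGeod_of_nat {T : Set ℕ} {γ : ℕ → G}
    (h : ∀ m ∈ T, ∀ n ∈ T, m ≤ n → A.dist (γ m) (γ n) = n - m) : IsGeod A T γ := by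
  intro m hm n hn
  rcases le_total m n with hmn | hmn
  · rw [h m hm n hn hmn, abs_sub_comm, abs_of_nonneg (by
      linarith [(by exact_mod_cast hmn : (m:ℤ) ≤ n)])]
    push_cast [hmn]; ring
  · rw [A.dist_comm, h n hn m hm hmn, abs_of_nonneg (by
      linarith [(by exact_mod_cast hmn : (n:ℤ) ≤ m)])]
    push_cast [hmn]; ring

/-- The Morse gauge of geodesics with cut points with gaps at most `b`. -/
noncomputable def cutGauge (b : ℕ) : Gauge := fun lam eps =>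
  lam * (lam * (2 * (lam + eps) + (b + 1) + eps)) + eps + (lam + eps)

theorem morse_aux {T : Set ℕ} {γ : ℕ → G} (hT : ∀ m ∈ T, ∀ k ≤ m, k ∈ T) (hγ : IsGeod A T γ)
    {b : ℕ} (hc : CutGap A b γ) {lam eps L : ℝ} (hlam : 1 ≤ lam) (heps : 0 ≤ eps) (hL : 0 ≤ L)
    {q : ℝ → G} (hq : IsQuasiGeod A lam eps L q) {m n : ℕ} (hn : n ∈ T) (hmn : m ≤ n)
    (h0 : q 0 = γ m) (h1 : q L = γ n) {t : ℝ} (ht : t ∈ Set.Icc 0 L) :
    ∃ k ∈ T, (A.dist (q t) (γ k) : ℝ) ≤ cutGauge b lam eps := by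
  -- the final estimate
  have fin : ∀ c c' : ℕ, c ≤ c' → c' ≤ c + (b + 1) → c' ≤ n → ∀ s s' : ℝ, 0 ≤ s → s ≤ t →
      t ≤ s' → s' ≤ L → (A.dist (q s) (γ c) : ℝ) ≤ lam + eps →
      (A.dist (q s') (γ c') : ℝ) ≤ lam + eps →
      ∃ k ∈ T, (A.dist (q t) (γ k) : ℝ) ≤ cutGauge b lam eps := by
    intro c c' hcc' hc'b hc'n s s' hs hst hts' hs'L hd hd'
    refine ⟨c, hT n hn c (hcc'.trans hc'n), ?_⟩
    have g1 : (A.dist (γ c) (γ c') : ℝ) ≤ b + 1 := by
      rw [hγ.nat (hT n hn c (hcc'.trans hc'n)) (hT n hn c' hc'n) hcc']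
      have : c' - c ≤ b + 1 := by omega
      exact_mod_cast this
    have t1 : (A.dist (q s) (q s') : ℝ) ≤ A.dist (q s) (γ c) + A.dist (γ c) (γ c') +
        A.dist (q s') (γ c') := by
      have a1 := A.dist_triangle (q s) (γ c) (q s')
      have a2 := A.dist_triangle (γ c) (γ c') (q s')
      rw [A.dist_comm (γ c') (q s')] at a2
      exact_mod_cast (by omega : A.dist (q s) (q s') ≤ A.dist (q s) (γ c) + A.dist (γ c) (γ c') +
        A.dist (q s') (γ c'))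
    have q1 := (hq s ⟨hs, hst.trans ht.2⟩ s' ⟨hs.trans (hst.trans hts'), hs'L⟩).1
    have q2 := (hq s ⟨hs, hst.trans ht.2⟩ t ht).2
    rw [abs_sub_comm, abs_of_nonneg (by linarith)] at q1 q2
    have q3 : s' - s ≤ lam * (2 * (lam + eps) + (b + 1) + eps) := by
      have : (s' - s) / lam ≤ 2 * (lam + eps) + (b + 1) + eps := by linarith
      rwa [div_le_iff₀ (by linarith), mul_comm] at this
    have t2 : (A.dist (q t) (γ c) : ℝ) ≤ A.dist (q s) (q t) + A.dist (q s) (γ c) := by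
      have a1 := A.dist_triangle (q t) (q s) (γ c)
      rw [A.dist_comm (q t) (q s)] at a1
      exact_mod_cast a1
    have q4 : lam * (t - s) ≤ lam * (lam * (2 * (lam + eps) + (b + 1) + eps)) :=
      mul_le_mul_of_nonneg_left (by linarith) (by linarith)
    rw [cutGauge]
    linarith
  have main : ∀ j c : ℕ, n - c = j → m ≤ c → c ≤ n → ∀ s : ℝ, 0 ≤ s → s ≤ t →
      (A.dist (q s) (γ c) : ℝ) ≤ lam + eps →
      ∃ k ∈ T, (A.dist (q t) (γ k) : ℝ) ≤ cutGauge b lam eps := by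
    intro j
    induction j using Nat.strong_induction_on with
    | _ j ih =>
      intro c hj hmc hcn s hs hst hd
      rcases Nat.eq_or_lt_of_le hcn with rfl | hlt
      · refine fin c c le_rfl (by omega) le_rfl s L hs hst ht.2 le_rfl hd ?_
        rw [h1]; simp; linarith
      · obtain ⟨t0, ht0, ht0b, V, hV, hV1, hV2⟩ := hc (c + 1)
        rcases lt_or_ge t0 n with h | h
        · obtain ⟨s', hs', hd'⟩ := crossing hlam hL hq hV (by rw [h0]; exact hV1 m (by omega))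
            (by rw [h1]; exact hV2 n h)
          rcases le_total s' t with h' | h'
          · exact ih (n - t0) (by omega) t0 rfl (by omega) h.le s' hs'.1 h' hd'
          · exact fin c t0 (by omega) (by omega) h.le s s' hs hst h' hs'.2 hd hd'
        · refine fin c n hcn (by omega) le_rfl s L hs hst ht.2 le_rfl hd ?_
          rw [h1]; simp; linarith
  refine main (n - m) m rfl le_rfl hmn 0 le_rfl ht.1 ?_
  rw [h0]; simp; linarith

theorem IsQuasiGeod.reverse {lam eps L : ℝ} {q : ℝ → G} (hq : IsQuasiGeod A lam eps L q) :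
    IsQuasiGeod A lam eps L (fun s => q (L - s)) := by
  intro s hs t ht
  have := hq (L - s) ⟨by linarith [hs.2], by linarith [hs.1]⟩ (L - t)
    ⟨by linarith [ht.2], by linarith [ht.1]⟩
  have e : |L - s - (L - t)| = |s - t| := by rw [← abs_neg]; congr 1; ring
  rw [e] at this
  exact this

/-- Geodesics with cut points with bounded gaps are Morse. -/
theorem isMorse_of_cutGap {T : Set ℕ} {γ : ℕ → G} (hT : ∀ m ∈ T, ∀ k ≤ m, k ∈ T)
    (hγ : IsGeod A T γ) {b : ℕ} (hc : CutGap A b γ) : IsMorse A (cutGauge b) T γ := by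
  rintro lam eps L hlam heps hL q hq ⟨m, hm, h0⟩ ⟨n, hn, h1⟩ t ht
  rcases le_total m n with h | h
  · exact morse_aux hT hγ hc hlam heps hL hq hn h h0 h1 ht
  · have := morse_aux hT hγ hc hlam heps hL hq.reverse hm h (by simpa using h1)
      (by simpa using h0) (t := L - t) ⟨by linarith [ht.2], by linarith [ht.1]⟩
    simpa using this

/-- Integer paths give quasi-geodesics. -/
theorem isQuasiGeod_of_nat {lam : ℝ} (hlam : 1 ≤ lam) {n : ℕ} {p : ℕ → G}
    (h : ∀ i j : ℕ, i ≤ j → j ≤ n → A.dist (p i) (p j) ≤ j - i ∧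
      ((j:ℝ) - i) / lam ≤ A.dist (p i) (p j)) :
    IsQuasiGeod A lam 1 n (fun s => p ⌊s⌋₊) := by
  have key : ∀ s t : ℝ, 0 ≤ s → s ≤ t → t ≤ n →
      (t - s) / lam - 1 ≤ (A.dist (p ⌊s⌋₊) (p ⌊t⌋₊) : ℝ) ∧
      (A.dist (p ⌊s⌋₊) (p ⌊t⌋₊) : ℝ) ≤ lam * (t - s) + 1 := by
    intro s t hs hst htn
    have f1 : ⌊s⌋₊ ≤ ⌊t⌋₊ := Nat.floor_mono hst
    have f2 : ⌊t⌋₊ ≤ n := Nat.floor_le_of_le htn
    obtain ⟨u1, u2⟩ := h ⌊s⌋₊ ⌊t⌋₊ f1 f2
    have s1 := Nat.floor_le hs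
    have s2 := Nat.lt_floor_add_one s
    have t1 := Nat.floor_le (hs.trans hst)
    have t2 := Nat.lt_floor_add_one t
    have u1' : (A.dist (p ⌊s⌋₊) (p ⌊t⌋₊) : ℝ) ≤ (⌊t⌋₊ : ℝ) - ⌊s⌋₊ := by
      have : A.dist (p ⌊s⌋₊) (p ⌊t⌋₊) + ⌊s⌋₊ ≤ ⌊t⌋₊ := by omega
      have : (A.dist (p ⌊s⌋₊) (p ⌊t⌋₊) : ℝ) + ⌊s⌋₊ ≤ ⌊t⌋₊ := by exact_mod_cast this
      linarith
    constructor
    · have e1 : (t - s) / lam ≤ (((⌊t⌋₊ : ℝ) - ⌊s⌋₊) + 1) / lam := by
        apply div_le_div_of_nonneg_right _ (by linarith)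
        linarith
      have e2 : (((⌊t⌋₊ : ℝ) - ⌊s⌋₊) + 1) / lam = ((⌊t⌋₊ : ℝ) - ⌊s⌋₊) / lam + 1 / lam := add_div _ _ _
      have e3 : 1 / lam ≤ 1 := by
        rw [div_le_one (by linarith)]; exact hlam
      linarith
    · nlinarith
  intro s hs t ht
  rcases le_total s t with hst | hst
  · rw [abs_sub_comm, abs_of_nonneg (by linarith)]
    exact key s t hs.1 hst ht.2
  · rw [abs_of_nonneg (by linarith), A.dist_comm]
    exact key t s ht.1 hst hs.2

theorem dist_zero_eq {T : Set ℕ} {γ : ℕ → G} (hγ : IsGeod A T γ) (h0 : (0:ℕ) ∈ T) {n : ℕ}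
    (hn : n ∈ T) : A.dist (γ 0) (γ n) = n := by
  rw [hγ.nat h0 hn (Nat.zero_le n)]; rfl

/-- A geodesic with the same endpoints as a Morse geodesic is uniformly close to it. -/
theorem geo_close {N : Gauge} {T : Set ℕ} (hT : ∀ m ∈ T, ∀ k ≤ m, k ∈ T) {α β : ℕ → G}
    (hβ : IsGeod A T β) (hM : IsMorse A N T β) {t : ℕ} (ht : t ∈ T)
    (hα : IsGeod A (Set.Iic t) α) (h0 : α 0 = β 0) (h1 : α t = β t) {m : ℕ} (hm : m ≤ t) :
    (A.dist (α m) (β m) : ℝ) ≤ 2 * N 1 1 := by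
  have hq : IsQuasiGeod A 1 1 t (fun s => α ⌊s⌋₊) := by
    refine isQuasiGeod_of_nat le_rfl fun i j hij hj => ?_
    have := hα.nat (m := i) (n := j) (hij.trans hj) hj hij
    refine ⟨this.le, ?_⟩
    rw [this, Nat.cast_sub hij, div_one]
  obtain ⟨k, hk, hd⟩ := hM 1 1 t le_rfl zero_le_one (Nat.cast_nonneg t) _ hq
    ⟨0, hT t ht 0 (Nat.zero_le t), by simpa using h0⟩ ⟨t, ht, by simpa using h1⟩ m
    ⟨Nat.cast_nonneg m, by exact_mod_cast hm⟩
  simp only [Nat.floor_natCast] at hd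
  have hmT : m ∈ T := hT t ht m hm
  have h0T : 0 ∈ T := hT t ht 0 (Nat.zero_le t)
  have a1 : A.dist (β 0) (α m) = m := by
    rw [← h0]; exact dist_zero_eq hα (Nat.zero_le t) hm
  have a2 : A.dist (β 0) (β k) = k := dist_zero_eq hβ h0T hk
  have t1 := A.dist_triangle (β 0) (α m) (β k)
  have t2 := A.dist_triangle (β 0) (β k) (α m)
  rw [A.dist_comm (β k) (α m)] at t2
  have t3 := A.dist_triangle (α m) (β k) (β m)
  have t4 : A.dist (β k) (β m) ≤ A.dist (α m) (β k) := by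
    rcases le_total k m with h | h
    · rw [hβ.nat hk hmT h]; omega
    · rw [A.dist_comm, hβ.nat hmT hk h]; omega
  have t5 : A.dist (α m) (β m) ≤ 2 * A.dist (α m) (β k) := by omega
  have t6 : (A.dist (α m) (β m) : ℝ) ≤ 2 * A.dist (α m) (β k) := by exact_mod_cast t5
  linarith

theorem IsMorse.nonneg {N : Gauge} {T : Set ℕ} {β : ℕ → G} (hM : IsMorse A N T β) {m : ℕ}
    (hm : m ∈ T) {lam eps : ℝ} (hlam : 1 ≤ lam) (heps : 0 ≤ eps) : 0 ≤ N lam eps := by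
  obtain ⟨k, -, hk⟩ := hM lam eps 0 hlam heps le_rfl (fun _ => β m) (by
    intro s hs t ht
    have e1 : s = 0 := le_antisymm hs.2 hs.1
    have e2 : t = 0 := le_antisymm ht.2 ht.1
    simp [e1, e2, heps]) ⟨m, hm, rfl⟩ ⟨m, hm, rfl⟩ 0 ⟨le_rfl, le_rfl⟩
  exact le_trans (Nat.cast_nonneg _) hk

/-- A path uniformly close to a Morse path is Morse. -/
theorem IsMorse.stable {N : Gauge} {T : Set ℕ} {α β : ℕ → G} (hM : IsMorse A N T β) {D : ℝ}
    (hD : ∀ m ∈ T, (A.dist (α m) (β m) : ℝ) ≤ D) :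
    IsMorse A (fun lam eps => N lam (eps + 2 * D) + D) T α := by
  rintro lam eps L hlam heps hL q hq ⟨m, hm, h0⟩ ⟨n, hn, h1⟩ t ht
  have hD0 : 0 ≤ D := le_trans (Nat.cast_nonneg _) (hD m hm)
  have hN0 : 0 ≤ N lam (eps + 2 * D) := hM.nonneg hm hlam (by linarith)
  by_cases ht0 : t = 0
  · refine ⟨m, hm, ?_⟩
    rw [ht0, h0]; simp; linarith
  by_cases htL : t = L
  · refine ⟨n, hn, ?_⟩
    rw [htL, h1]; simp; linarith
  have hLpos : L ≠ 0 := by
    rintro rfl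
    exact ht0 (le_antisymm ht.2 ht.1)
  set q' : ℝ → G := fun s => if s = 0 then β m else if s = L then β n else q s with hq'
  have hclose : ∀ s, (A.dist (q s) (q' s) : ℝ) ≤ D := by
    intro s
    rw [hq']
    simp only
    split_ifs with c1 c2
    · rw [c1, h0]; exact hD m hm
    · rw [c2, h1]; exact hD n hn
    · simpa using hD0
  have hqg : IsQuasiGeod A lam (eps + 2 * D) L q' := by
    intro s hs u hu
    obtain ⟨a1, a2⟩ := hq s hs u hu
    have c1 := hclose s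
    have c2 := hclose u
    have b1 : (A.dist (q s) (q u) : ℝ) ≤ A.dist (q s) (q' s) + A.dist (q' s) (q' u) +
        A.dist (q u) (q' u) := by
      have x1 := A.dist_triangle (q s) (q' s) (q u)
      have x2 := A.dist_triangle (q' s) (q' u) (q u)
      rw [A.dist_comm (q' u) (q u)] at x2
      exact_mod_cast (by omega : A.dist (q s) (q u) ≤ A.dist (q s) (q' s) + A.dist (q' s) (q' u) +
        A.dist (q u) (q' u))
    have b2 : (A.dist (q' s) (q' u) : ℝ) ≤ A.dist (q s) (q' s) + A.dist (q s) (q u) +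
        A.dist (q u) (q' u) := by
      have x1 := A.dist_triangle (q' s) (q s) (q' u)
      have x2 := A.dist_triangle (q s) (q u) (q' u)
      rw [A.dist_comm (q' s) (q s)] at x1
      exact_mod_cast (by omega : A.dist (q' s) (q' u) ≤ A.dist (q s) (q' s) + A.dist (q s) (q u) +
        A.dist (q u) (q' u))
    constructor <;> linarith
  obtain ⟨k, hk, hd⟩ := hM lam (eps + 2 * D) L hlam (by linarith) hL q' hqg
    ⟨m, hm, by simp [hq']⟩ ⟨n, hn, by simp [hq', hLpos]⟩ t ht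
  refine ⟨k, hk, ?_⟩
  have e : q' t = q t := by simp [hq', ht0, htL]
  rw [e] at hd
  have := hD k hk
  have x1 := A.dist_triangle (q t) (β k) (α k)
  rw [A.dist_comm (β k) (α k)] at x1
  have x2 : (A.dist (q t) (α k) : ℝ) ≤ A.dist (q t) (β k) + A.dist (α k) (β k) := by
    exact_mod_cast x1
  linarith

/-- Geodesic rays from the basepoint at finite Hausdorff distance are uniformly close. -/
theorem FinHaus.pointwise {γ γ' : ℕ → G} (h : FinHaus A γ γ') (hγ : IsGeod A Set.univ γ)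
    (hγ' : IsGeod A Set.univ γ') (h0 : γ 0 = γ' 0) : ∃ D : ℕ, ∀ n, A.dist (γ n) (γ' n) ≤ D := by
  obtain ⟨D, h1, -⟩ := h
  refine ⟨2 * D, fun n => ?_⟩
  obtain ⟨k, hk⟩ := h1 n
  have a1 := dist_zero_eq hγ (Set.mem_univ 0) (Set.mem_univ n)
  have a2 := dist_zero_eq hγ' (Set.mem_univ 0) (Set.mem_univ k)
  rw [h0] at a1
  have t1 := A.dist_triangle (γ' 0) (γ n) (γ' k)
  have t2 := A.dist_triangle (γ' 0) (γ' k) (γ n)
  rw [A.dist_comm (γ' k) (γ n)] at t2
  have t3 := A.dist_triangle (γ n) (γ' k) (γ' n)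
  rcases le_total k n with h | h
  · have := hγ'.nat (Set.mem_univ k) (Set.mem_univ n) h
    omega
  · have := hγ'.nat (Set.mem_univ n) (Set.mem_univ k) h
    rw [A.dist_comm] at this
    omega

theorem finHaus_of_pointwise {γ γ' : ℕ → G} {D : ℕ} (h : ∀ n, A.dist (γ n) (γ' n) ≤ D) :
    FinHaus A γ γ' := ⟨D, fun m => ⟨m, h m⟩, fun n => ⟨n, h n⟩⟩

end Pool.Agent.H659R3.MorseLim
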