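import Pool.Agent.H659R3.MorseLim.Word

/-! # Morse boundary, limit sets, almost malnormal and hyperbolically embedded subgroups -/

set_option autoImplicit false

namespace Pool.Agent.H659R3.MorseLim

variable {G : Type} [Group G] (A : FinGen G)

/-- `γ` restricted to the set of times `T ⊆ ℕ` is geodesic for the word metric:
`d(γ m, γ n) = |m - n|`. (`T = ℕ` for rays and `T = {0, ..., l}` for segments.) -/
def IsGeod (T : Set ℕ) (γ : ℕ → G) : Prop :=
  ∀ m ∈ T, ∀ n ∈ T, (A.dist (γ m) (γ n) : ℤ) = |(m : ℤ) - n|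

/-- `q : [0, L] → G` is a `(lam, eps)`-quasi-geodesic for the word metric (continuity plays no
role). -/
def IsQuasiGeod (lam eps L : ℝ) (q : ℝ → G) : Prop :=
  ∀ s ∈ Set.Icc 0 L, ∀ t ∈ Set.Icc 0 L,
    |s - t| / lam - eps ≤ (A.dist (q s) (q t) : ℝ) ∧
      (A.dist (q s) (q t) : ℝ) ≤ lam * |s - t| + eps

/-- A Morse gauge; only its values on `[1, ∞) × [0, ∞)` matter. -/
abbrev Gauge := ℝ → ℝ → ℝ

/-- The path `γ`, with set of times `T`, is `N`-Morse: every `(lam, eps)`-quasi-geodesic with
endpoints on `γ` stays in the `N(lam, eps)`-neighbourhood of `γ`. -/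
def IsMorse (N : Gauge) (T : Set ℕ) (γ : ℕ → G) : Prop :=
  ∀ lam eps L : ℝ, 1 ≤ lam → 0 ≤ eps → 0 ≤ L → ∀ q : ℝ → G, IsQuasiGeod A lam eps L q →
    (∃ m ∈ T, q 0 = γ m) → (∃ m ∈ T, q L = γ m) →
      ∀ t ∈ Set.Icc 0 L, ∃ m ∈ T, (A.dist (q t) (γ m) : ℝ) ≤ N lam eps

/-- The `N`-Morse geodesic rays of `G` from the basepoint `1`. -/
structure NRay (N : Gauge) where
  /-- the ray -/
  path : ℕ → G
  zero : path 0 = 1
  geod : IsGeod A Set.univ path
  morse : IsMorse A N Set.univ path

/-- The Morse geodesic rays of `G` from the basepoint `1`. -/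
structure MorseRay where
  /-- the ray -/
  path : ℕ → G
  zero : path 0 = 1
  geod : IsGeod A Set.univ path
  morse : ∃ N, IsMorse A N Set.univ path

/-- The rays `γ` and `γ'` are at finite Hausdorff distance. -/
def FinHaus (γ γ' : ℕ → G) : Prop :=
  ∃ D : ℕ, (∀ m, ∃ n, A.dist (γ m) (γ' n) ≤ D) ∧ (∀ n, ∃ m, A.dist (γ m) (γ' n) ≤ D)

theorem FinHaus.refl (γ : ℕ → G) : FinHaus A γ γ :=
  ⟨0, fun m => ⟨m, by simp⟩, fun m => ⟨m, by simp⟩⟩

variable {A}

theorem FinHaus.symm {γ γ' : ℕ → G} (h : FinHaus A γ γ') : FinHaus A γ' γ := by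
  obtain ⟨D, h1, h2⟩ := h
  refine ⟨D, fun m => ?_, fun n => ?_⟩
  · obtain ⟨n, hn⟩ := h2 m
    exact ⟨n, by rwa [A.dist_comm]⟩
  · obtain ⟨m, hm⟩ := h1 n
    exact ⟨m, by rwa [A.dist_comm]⟩

theorem FinHaus.trans {γ γ' γ'' : ℕ → G} (h : FinHaus A γ γ') (h' : FinHaus A γ' γ'') :
    FinHaus A γ γ'' := by
  obtain ⟨D, h1, h2⟩ := h
  obtain ⟨D', h1', h2'⟩ := h'
  refine ⟨D + D', fun m => ?_, fun n => ?_⟩
  · obtain ⟨k, hk⟩ := h1 m
    obtain ⟨n, hn⟩ := h1' k
    exact ⟨n, (A.dist_triangle _ _ _).trans (add_le_add hk hn)⟩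
  · obtain ⟨k, hk⟩ := h2' n
    obtain ⟨m, hm⟩ := h2 k
    exact ⟨m, (A.dist_triangle _ _ _).trans (add_le_add hm hk)⟩

variable (A)

/-- Two Morse rays are equivalent if they are at finite Hausdorff distance. -/
def raySetoid : Setoid (MorseRay A) where
  r γ γ' := FinHaus A γ.path γ'.path
  iseqv := ⟨fun γ => FinHaus.refl A γ.path, fun h => h.symm, fun h h' => h.trans h'⟩

/-- The Morse boundary of `G`, as a set: classes of Morse rays from `1`. -/
def MorseBoundary : Type := Quotient (raySetoid A)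

variable {A}

/-- The point of the Morse boundary defined by a Morse ray. -/
def MorseRay.cls (γ : MorseRay A) : MorseBoundary A := Quotient.mk (raySetoid A) γ

/-- An `N`-Morse ray is a Morse ray. -/
def NRay.ray {N : Gauge} (γ : NRay A N) : MorseRay A := ⟨γ.path, γ.zero, γ.geod, N, γ.morse⟩

/-- The point of the Morse boundary defined by an `N`-Morse ray; the stratum `∂_M^N G` is the
range of this map. -/
def NRay.cls {N : Gauge} (γ : NRay A N) : MorseBoundary A := γ.ray.cls

variable (A)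

/-- The `N`-Morse rays carry the topology of uniform convergence on compact sets; as they are
maps from `ℕ` to a discrete space, this is the topology of pointwise convergence. -/
instance (N : Gauge) : TopologicalSpace (NRay A N) :=
  TopologicalSpace.induced (fun γ : NRay A N => γ.path)
    (@Pi.topologicalSpace ℕ (fun _ => G) fun _ => ⊥)

/-- The topology of the Morse boundary: the direct limit over all Morse gauges `N` of the
strata `∂_M^N G`, each with the quotient topology from the space of `N`-Morse rays. -/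
instance : TopologicalSpace (MorseBoundary A) :=
  ⨆ N : Gauge, TopologicalSpace.coinduced (fun γ : NRay A N => γ.cls) inferInstance

/-- The limit set of the subgroup `H` in the Morse boundary of `G`: the points represented by
an `N`-Morse ray `β` (for some gauge `N`) which is the limit, uniformly on compact sets, of
`N`-Morse geodesics `α n` of `G` from `1` to `h n`, with `h n ∈ H`. -/
def limitSet (H : Subgroup G) : Set (MorseBoundary A) :=
  {ξ | ∃ (N : Gauge) (h : ℕ → G) (α : ℕ → ℕ → G) (β : NRay A N),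
    (∀ n, h n ∈ H ∧ α n 0 = 1 ∧ α n (A.len (h n)) = h n ∧
      IsGeod A (Set.Iic (A.len (h n))) (α n) ∧ IsMorse A N (Set.Iic (A.len (h n))) (α n)) ∧
    (∀ k, ∃ n₀, ∀ n ≥ n₀, k ≤ A.len (h n) ∧ ∀ j ≤ k, α n j = β.path j) ∧
    β.cls = ξ}

/-- The limit set of `H` is the Morse boundary of `H`: the inclusion `H → G` induces a
homeomorphism `∂_M H → ΛH`, i.e. there is a homeomorphism from `∂_M H` onto the limit set
`ΛH ⊆ ∂_M G` mapping the class of a Morse ray `γ` of `H` to the class of those Morse rays of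
`G` which are at finite Hausdorff distance from `γ`. -/
def LimitSetIsMorseBoundary (H : Subgroup G) (B : FinGen H) : Prop :=
  ∃ φ : MorseBoundary B ≃ₜ limitSet A H, ∀ (γ : MorseRay B) (γ' : MorseRay A),
    (φ γ.cls : MorseBoundary A) = γ'.cls ↔ FinHaus A (fun n => (γ.path n : G)) γ'.path

variable {A}

/-- `H` is almost malnormal in `G`: `H ∩ g H g⁻¹` is finite for every `g ∉ H`. -/
def AlmostMalnormal (H : Subgroup G) : Prop :=
  ∀ g : G, g ∉ H → {x : G | x ∈ H ∧ g⁻¹ * x * g ∈ H}.Finite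

/-- The Cayley graph `Γ(G, X ⊔ H)` (without loops and with multiple edges identified, which does
not affect distances). -/
def cayleyGraph (X : Set G) (H : Subgroup G) : SimpleGraph G where
  Adj g g' := g ≠ g' ∧ ((g⁻¹ * g' ∈ X ∨ g'⁻¹ * g ∈ X) ∨ g⁻¹ * g' ∈ H)
  symm := ⟨by
    rintro g g' ⟨h1, h2⟩
    refine ⟨h1.symm, ?_⟩
    rcases h2 with h2 | h2
    · exact Or.inl h2.symm
    · right
      have := H.inv_mem h2
      simpa using this⟩
  loopless := ⟨fun g h => h.1 rfl⟩

/-- The Cayley graph `Γ(G, X ⊔ H)` with the edges of the complete subgraph on `H` labelled by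
elements of `H` deleted: an edge labelled by an element of `X` (or the inverse of one) is always
allowed, an edge labelled by an element of `H` is allowed if its origin (equivalently, its end)
is not in `H`. -/
def relGraph (X : Set G) (H : Subgroup G) : SimpleGraph G where
  Adj g g' := g ≠ g' ∧ ((g⁻¹ * g' ∈ X ∨ g'⁻¹ * g ∈ X) ∨ (g⁻¹ * g' ∈ H ∧ g ∉ H))
  symm := ⟨by
    rintro g g' ⟨h1, h2⟩
    refine ⟨h1.symm, ?_⟩
    rcases h2 with h2 | ⟨h2, h3⟩
    · exact Or.inl h2.symm
    · right
      have := H.inv_mem h2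
      refine ⟨by simpa using this, fun h => h3 ?_⟩
      have h4 := H.mul_mem h this
      simpa using h4⟩
  loopless := ⟨fun g h => h.1 rfl⟩

/-- A connected graph is hyperbolic (Gromov's four point condition on the vertices). -/
def IsHyperbolicGraph (Γ : SimpleGraph G) : Prop :=
  Γ.Connected ∧ ∃ δ : ℕ, ∀ x y z w : G,
    Γ.dist x y + Γ.dist z w ≤
      max (Γ.dist x z + Γ.dist y w) (Γ.dist x w + Γ.dist y z) + δ

/-- `H` is hyperbolically embedded in `G` (Dahmani–Guirardel–Osin): there is `X ⊆ G` such that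
`X ∪ H` generates `G`, the Cayley graph `Γ(G, X ⊔ H)` is hyperbolic, and the relative metric
`d̂(h, k)`, the length of a shortest path from `h` to `k` in `relGraph X H` (`∞` if there is
none), is locally finite on `H`. -/
def HyperbolicallyEmbedded (H : Subgroup G) : Prop :=
  ∃ X : Set G, Subgroup.closure (X ∪ (H : Set G)) = ⊤ ∧
    IsHyperbolicGraph (cayleyGraph X H) ∧
    ∀ h ∈ H, ∀ n : ℕ, {k : G | k ∈ H ∧ (relGraph X H).edist h k ≤ n}.Finite

end Pool.Agent.H659R3.MorseLim
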