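import Pool.Agent.H659R3.MorseLim.Cuts

/-! # Morse rays have bounded segments in flats -/

set_option autoImplicit false

namespace Pool.Agent.H659R3.MorseLim

theorem detour_arith {a y l L i j : ℤ} (ha : 0 ≤ a) (hy1 : y ≤ a) (hy2 : -a ≤ y)
    (hl : l = a + |y|) (hL : L = 2 * l + a - y) (hi : 0 ≤ i) (hij : i ≤ j) (hj : j ≤ L) :
    |min (max (i - l) 0) a - min (max (j - l) 0) a| +
        |(min i l - max (i - l - a) 0) - (min j l - max (j - l - a) 0)| ≤ j - i ∧
      j - i ≤ 6 * (|min (max (i - l) 0) a - min (max (j - l) 0) a| +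
        |(min i l - max (i - l - a) 0) - (min j l - max (j - l - a) 0)|) := by
  rcases abs_cases y with ⟨h1, h2⟩ | ⟨h1, h2⟩ <;> rw [h1] at hl <;>
  rcases abs_cases (min (max (i - l) 0) a - min (max (j - l) 0) a) with ⟨h3, h4⟩ | ⟨h3, h4⟩ <;>
  rcases abs_cases ((min i l - max (i - l - a) 0) - (min j l - max (j - l - a) 0)) with
    ⟨h5, h6⟩ | ⟨h5, h6⟩ <;> rw [h3, h5] <;> constructor <;> omega

variable {G : Type} [Group G] {A : FinGen G}

theorem flat_bound_aux {pt : ℤ → ℤ → G}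
    (hpt : ∀ x y x' y', (A.dist (pt x y) (pt x' y') : ℤ) = |x - x'| + |y - y'|)
    {N : Gauge} {γ : ℕ → G} (hγ : IsGeod A Set.univ γ) (hM : IsMorse A N Set.univ γ)
    {n₀ l : ℕ} {x y : ℤ} (h0 : γ n₀ = pt 0 0) (h1 : γ (n₀ + l) = pt x y) (hxy : |y| ≤ |x|)
    (hpast : ∀ m < n₀, l ≤ A.dist (pt 0 l) (γ m)) : (l : ℝ) ≤ 2 * N 6 1 := by
  have hd : ∀ m n : ℕ, m ≤ n → A.dist (γ m) (γ n) = n - m := fun m n hmn =>
    hγ.nat trivial trivial hmn
  have hl : (l : ℤ) = |x| + |y| := by
    have e1 := hd n₀ (n₀ + l) (by omega)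
    have e2 := hpt 0 0 x y
    rw [← h0, ← h1, e1] at e2
    rw [zero_sub, zero_sub, abs_neg, abs_neg] at e2
    rw [← e2]
    push_cast [show n₀ + l - n₀ = l by omega]
    rfl
  obtain ⟨s, hs, hsx⟩ : ∃ s : ℤ, (s = 1 ∨ s = -1) ∧ s * |x| = x := by
    rcases abs_cases x with ⟨h, -⟩ | ⟨h, -⟩
    · exact ⟨1, Or.inl rfl, by rw [h, one_mul]⟩
    · exact ⟨-1, Or.inr rfl, by rw [h]; ring⟩
  have hsabs : ∀ u v : ℤ, |s * u - s * v| = |u - v| := by
    intro u v
    rw [← mul_sub, abs_mul]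
    rcases hs with rfl | rfl <;> simp
  have hy1 : y ≤ |x| := (le_abs_self y).trans hxy
  have hy2 : -|x| ≤ y := by
    have := neg_abs_le y
    linarith
  obtain ⟨L, hL⟩ : ∃ L : ℕ, (L : ℤ) = 2 * l + |x| - y :=
    ⟨(2 * l + |x| - y).toNat, by
      rw [Int.toNat_of_nonneg]
      have := abs_nonneg x
      omega⟩
  set p : ℕ → G := fun k => pt (s * min (max ((k : ℤ) - l) 0) |x|)
    (min (k : ℤ) l - max ((k : ℤ) - l - |x|) 0) with hp
  have hq : IsQuasiGeod A 6 1 L (fun s => p ⌊s⌋₊) := by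
    refine isQuasiGeod_of_nat (by norm_num) fun i j hij hj => ?_
    have e := hpt (s * min (max ((i : ℤ) - l) 0) |x|) (min (i : ℤ) l - max ((i : ℤ) - l - |x|) 0)
      (s * min (max ((j : ℤ) - l) 0) |x|) (min (j : ℤ) l - max ((j : ℤ) - l - |x|) 0)
    rw [hsabs] at e
    have ar := detour_arith (a := |x|) (y := y) (l := l) (L := L) (i := i) (j := j)
      (abs_nonneg x) hy1 hy2 hl hL (by omega) (by omega) (by omega)
    rw [← e] at ar
    have e' : A.dist (p i) (p j) = A.dist (pt (s * min (max ((i : ℤ) - l) 0) |x|)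
        (min (i : ℤ) l - max ((i : ℤ) - l - |x|) 0)) (pt (s * min (max ((j : ℤ) - l) 0) |x|)
        (min (j : ℤ) l - max ((j : ℤ) - l - |x|) 0)) := rfl
    rw [← e'] at ar
    constructor
    · omega
    · rw [div_le_iff₀ (by norm_num)]
      have : ((j : ℝ) - i) ≤ 6 * A.dist (p i) (p j) := by exact_mod_cast ar.2
      linarith
  have hp0 : p 0 = pt 0 0 := by
    simp only [hp]
    congr 1
    · have : min (max (((0 : ℕ) : ℤ) - l) 0) |x| = 0 := by
        have := abs_nonneg x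
        omega
      rw [this, mul_zero]
    · have := abs_nonneg x
      omega
  have hpL : p L = pt x y := by
    simp only [hp]
    congr 1
    · have : min (max ((L : ℤ) - l) 0) |x| = |x| := by
        have := abs_nonneg x
        have := abs_nonneg y
        omega
      rw [this, hsx]
    · have := abs_nonneg x
      have := abs_nonneg y
      omega
  have hpl : p l = pt 0 l := by
    simp only [hp]
    congr 1
    · have : min (max ((l : ℤ) - l) 0) |x| = 0 := by
        have := abs_nonneg x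
        omega
      rw [this, mul_zero]
    · have := abs_nonneg x
      omega
  obtain ⟨m, -, hm⟩ := hM 6 1 L (by norm_num) (by norm_num) (Nat.cast_nonneg L) _ hq
    ⟨n₀, trivial, by simpa [h0] using hp0⟩ ⟨n₀ + l, trivial, by simpa [h1] using hpL⟩ l
    ⟨Nat.cast_nonneg l, by
      have : l ≤ L := by
        have := abs_nonneg y
        omega
      exact_mod_cast this⟩
  simp only [Nat.floor_natCast] at hm
  rw [hpl] at hm
  have d0 : A.dist (pt 0 l) (γ n₀) = l := by
    have := hpt 0 l 0 0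
    rw [← h0, sub_zero, sub_zero, abs_zero, zero_add, abs_of_nonneg (by omega)] at this
    omega
  have d1 : l ≤ A.dist (pt 0 l) (γ (n₀ + l)) := by
    have := hpt 0 l x y
    rw [← h1, zero_sub, abs_neg] at this
    have := le_abs_self ((l : ℤ) - y)
    omega
  have key : l ≤ 2 * A.dist (pt 0 l) (γ m) := by
    rcases lt_or_ge m n₀ with h | h
    · have := hpast m h
      omega
    · have t1 := A.dist_triangle (pt 0 l) (γ m) (γ n₀)
      rw [A.dist_comm (γ m) (γ n₀), hd n₀ m h, d0] at t1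
      rcases le_total m (n₀ + l) with h' | h'
      · have t2 := A.dist_triangle (pt 0 l) (γ m) (γ (n₀ + l))
        rw [hd m (n₀ + l) h'] at t2
        omega
      · have t2 := A.dist_triangle (pt 0 l) (γ m) (γ (n₀ + l))
        rw [A.dist_comm (γ m), hd (n₀ + l) m h'] at t2
        have t3 := A.dist_triangle (γ n₀) (pt 0 l) (γ m)
        rw [A.dist_comm (γ n₀) (pt 0 l), hd n₀ m h, d0] at t3
        omega
  have key' : (l : ℝ) ≤ 2 * A.dist (pt 0 l) (γ m) := by exact_mod_cast key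
  linarith

/-- A Morse ray has no long geodesic segments in a flat. -/
theorem flat_bound {pt : ℤ → ℤ → G}
    (hpt : ∀ x y x' y', (A.dist (pt x y) (pt x' y') : ℤ) = |x - x'| + |y - y'|)
    {N : Gauge} {γ : ℕ → G} (hγ : IsGeod A Set.univ γ) (hM : IsMorse A N Set.univ γ)
    {n₀ l : ℕ} {x y : ℤ} (h0 : γ n₀ = pt 0 0) (h1 : γ (n₀ + l) = pt x y)
    (hpast : ∀ m < n₀, l ≤ A.dist (pt 0 l) (γ m) ∧ l ≤ A.dist (pt l 0) (γ m)) :
    (l : ℝ) ≤ 2 * N 6 1 := by
  rcases le_total |y| |x| with h | h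
  · exact flat_bound_aux hpt hγ hM h0 h1 h fun m hm => (hpast m hm).1
  · exact flat_bound_aux (pt := fun x y => pt y x) (fun x y x' y' => by rw [hpt, add_comm]) hγ hM
      (x := y) (y := x) h0 h1 h fun m hm => (hpast m hm).2

end Pool.Agent.H659R3.MorseLim
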