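import Pool.Agent.H659R3.MorseLim.Cuts

/-! # The free product `K * K`: cut points and malnormality -/

set_option autoImplicit false

namespace Pool.Agent.H659R3.MorseLim

open Monoid Monoid.CoprodI

variable {K : Type} [Group K]

/-- The free product `K * K`. -/
abbrev FP (K : Type) [Group K] : Type := CoprodI (fun _ : Bool => K)

/-- The inclusion of the factor `i`. -/
abbrev ι (i : Bool) : K →* FP K := CoprodI.of (M := fun _ : Bool => K) (i := i)

noncomputable section

open Classical in
/-- The reduced word of `g`. -/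
def wd (g : FP K) : List (Σ _ : Bool, K) := (Word.equiv g).toList

/-- Reduced lists. -/
def Red (l : List (Σ _ : Bool, K)) : Prop :=
  (∀ x ∈ l, x.2 ≠ 1) ∧ l.IsChain fun a b => a.1 ≠ b.1

/-- The product of a list. -/
def lp (l : List (Σ _ : Bool, K)) : FP K := (l.map fun x => ι x.1 x.2).prod

/-- The index of the last letter of a list. -/
def lastI (l : List (Σ _ : Bool, K)) : Option Bool := l.getLast?.map Sigma.fst

open Classical in
theorem wd_red (g : FP K) : Red (wd g) := ⟨(Word.equiv g).ne_one, (Word.equiv g).chain_ne⟩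

open Classical in
theorem lp_wd (g : FP K) : lp (wd g) = g := Word.equiv.left_inv g

open Classical in
theorem wd_lp {l : List (Σ _ : Bool, K)} (h : Red l) : wd (lp l) = l := by
  have := Word.equiv.right_inv (⟨l, h.1, h.2⟩ : Word (fun _ : Bool => K))
  exact congrArg Word.toList this

theorem wd_one : wd (1 : FP K) = [] := wd_lp (l := []) ⟨by simp, by simp⟩

theorem wd_eq_nil {g : FP K} (h : wd g = []) : g = 1 := by
  rw [← lp_wd g, h]; rfl

theorem wd_ι {i : Bool} {k : K} (hk : k ≠ 1) : wd (ι i k) = [⟨i, k⟩] := by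
  have : Red [(⟨i, k⟩ : Σ _ : Bool, K)] := ⟨by simpa using hk, by simp⟩
  have h := wd_lp this
  simpa [lp] using h

open Classical in
/-- Multiplying on the left by a letter of the factor `i`: there are `p ∈ K` and a list `t` not
starting with a letter of the factor `i` such that `g = p t` and the reduced words of `g` and
`k g` are obtained by prepending `p`, `k p` (if they are not trivial) to `t`. -/
theorem exists_pair (g : FP K) (i : Bool) : ∃ (p : K) (t : List (Σ _ : Bool, K)),
    Red t ∧ (∀ x ∈ t.head?, i ≠ x.1) ∧ g = ι i p * lp t ∧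
    (∀ k : K, wd (ι i k * g) = if k * p = 1 then t else ⟨i, k * p⟩ :: t) := by
  let w := Word.equiv g
  let pr := Word.equivPair i w
  have ht : Red pr.tail.toList := ⟨pr.tail.ne_one, pr.tail.chain_ne⟩
  have hg : g = ι i pr.head * lp pr.tail.toList := by
    have h1 : Word.rcons pr = w := (Word.equivPair i).symm_apply_apply w
    have h2 : Word.prod w = g := Word.equiv.left_inv g
    rw [← h2, ← h1, Word.prod_rcons]
    rfl
  have hfst := Word.fstIdx_ne_iff.1 pr.fstIdx_ne
  refine ⟨pr.head, pr.tail.toList, ht, hfst, hg, fun k => ?_⟩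
  have h3 : ι i k * g = ι i (k * pr.head) * lp pr.tail.toList := by
    rw [hg, map_mul, ← mul_assoc]
  rw [h3]
  split_ifs with h
  · rw [h, map_one, one_mul]
    exact wd_lp ht
  · have hr : Red (⟨i, k * pr.head⟩ :: pr.tail.toList : List (Σ _ : Bool, K)) := by
      refine ⟨?_, ?_⟩
      · intro x hx
        rcases List.mem_cons.1 hx with rfl | hx
        · exact h
        · exact ht.1 x hx
      · exact ht.2.cons hfst
    have := wd_lp hr
    have e : lp (⟨i, k * pr.head⟩ :: pr.tail.toList : List (Σ _ : Bool, K)) =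
        ι i (k * pr.head) * lp pr.tail.toList := by simp [lp]
    rwa [e] at this

theorem lastI_left (g : FP K) (i : Bool) (k : K) (h1 : g ≠ 1) (h2 : ι i k * g ≠ 1) :
    lastI (wd (ι i k * g)) = lastI (wd g) := by
  obtain ⟨p, t, -, -, -, hw⟩ := exists_pair g i
  have hg := hw 1
  rw [map_one, one_mul, one_mul] at hg
  have hk := hw k
  have n1 : wd g ≠ [] := fun h => h1 (wd_eq_nil h)
  have n2 : wd (ι i k * g) ≠ [] := fun h => h2 (wd_eq_nil h)
  rw [hg] at n1 ⊢
  rw [hk] at n2 ⊢
  rcases eq_or_ne t [] with rfl | ht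
  · split_ifs at n1 n2 ⊢ <;> simp_all [lastI]
  · have : ∀ x : Σ _ : Bool, K, lastI (x :: t) = lastI t := by
      intro x
      rw [lastI, lastI, List.getLast?_cons_of_ne_nil ht]
    split_ifs <;> simp [this]

/-- The index of the first letter of the reduced word of `g` (defined via the inverse). -/
def fidx (g : FP K) : Option Bool := lastI (wd g⁻¹)

theorem fidx_one : fidx (1 : FP K) = none := by simp [fidx, wd_one, lastI]

theorem fidx_ι {i : Bool} {k : K} (hk : k ≠ 1) : fidx (ι i k) = some i := by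
  rw [fidx, ← map_inv, wd_ι (by simpa using hk)]
  simp [lastI]

theorem fidx_mul (g : FP K) (i : Bool) (k : K) (h1 : g ≠ 1) (h2 : g * ι i k ≠ 1) :
    fidx (g * ι i k) = fidx g := by
  rw [fidx, fidx, mul_inv_rev, ← map_inv]
  apply lastI_left
  · simpa using h1
  · intro h
    apply h2
    rw [map_inv, ← mul_inv_rev] at h
    exact inv_eq_one.1 h

/-- Generating sets whose elements lie in the factors. -/
def FactorGen (A : FinGen (FP K)) : Prop := ∀ x ∈ A.S, ∃ (i : Bool) (k : K), x = ι i k

theorem isCut_aux {A : FinGen (FP K)} (hA : FactorGen A) (u : FP K) (i : Bool) :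
    ∀ l : List (FP K), A.IsW l → ∀ w : FP K, fidx (u⁻¹ * w) = some i →
      fidx (u⁻¹ * (w * l.prod)) ≠ some i → A.dist w u + A.dist u (w * l.prod) ≤ l.length := by
  intro l
  induction l with
  | nil =>
    intro _ w h1 h2
    rw [List.prod_nil, mul_one] at h2
    exact absurd h1 h2
  | cons s l ih =>
    intro hl w h1 h2
    have hs : s ∈ A.S ∨ s⁻¹ ∈ A.S := hl s (by simp)
    have hl' : A.IsW l := fun x hx => hl x (List.mem_cons_of_mem _ hx)
    have e : w * (s :: l).prod = w * s * l.prod := by rw [List.prod_cons, mul_assoc]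
    rw [e] at h2 ⊢
    have hws := A.dist_mul_gen w s hs
    obtain ⟨j, k, hk⟩ : ∃ (j : Bool) (k : K), s = ι j k := by
      rcases hs with hs | hs
      · exact hA s hs
      · obtain ⟨j, k, hk⟩ := hA _ hs
        exact ⟨j, k⁻¹, by rw [map_inv, ← hk, inv_inv]⟩
    by_cases h3 : fidx (u⁻¹ * (w * s)) = some i
    · have h4 := ih hl' (w * s) h3 h2
      have t1 := A.dist_triangle w (w * s) u
      rw [List.length_cons]
      omega
    · have hne : u⁻¹ * w ≠ 1 := by
        intro h
        rw [h, fidx_one] at h1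
        simp at h1
      have h5 : u⁻¹ * w * s = 1 := by
        by_contra h5
        apply h3
        rw [hk] at h5 ⊢
        rw [← mul_assoc, fidx_mul _ _ _ hne h5, h1]
      have h6 : w * s = u := by
        have : u⁻¹ * (w * s) = 1 := by rw [← mul_assoc]; exact h5
        exact (inv_mul_eq_one.1 this).symm
      rw [h6] at hws ⊢
      have h7 : A.dist u (u * l.prod) ≤ l.length := by
        rw [FinGen.dist]
        exact A.len_le' hl' (by group)
      rw [List.length_cons]
      omega

theorem isCut {A : FinGen (FP K)} (hA : FactorGen A) (u : FP K) (i : Bool) :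
    IsCut A u {w | fidx (u⁻¹ * w) = some i} := by
  intro w hw w' hw'
  obtain ⟨l, h1, h2, h3⟩ := A.len_spec (w⁻¹ * w')
  have e : w * l.prod = w' := by rw [h3]; group
  have := isCut_aux hA u i l h2 w hw (by rw [e]; exact hw')
  rw [e, h1] at this
  exact this

/-- A geodesic ray has a cut point where it switches from one factor to the other. -/
theorem cut_of_switch {A : FinGen (FP K)} (hA : FactorGen A) {γ : ℕ → FP K}
    (hγ : IsGeod A Set.univ γ) {t : ℕ} {i j : Bool} {k k' : K} (hij : i ≠ j)
    (h1 : (γ t)⁻¹ * γ (t + 1) = ι i k) (h2 : (γ (t + 1))⁻¹ * γ (t + 2) = ι j k') :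
    (∀ m < t + 1, γ m ∈ {w | fidx ((γ (t + 1))⁻¹ * w) = some i}) ∧
      ∀ m, t + 1 < m → γ m ∉ {w | fidx ((γ (t + 1))⁻¹ * w) = some i} := by
  have hc := isCut hA (γ (t + 1)) i
  set V : Set (FP K) := {w | fidx ((γ (t + 1))⁻¹ * w) = some i} with hV
  have hd : ∀ m n : ℕ, m ≤ n → A.dist (γ m) (γ n) = n - m := fun m n hmn =>
    hγ.nat trivial trivial hmn
  have hne : ∀ m, γ m ≠ γ (m + 1) := by
    intro m h
    have := hd m (m + 1) (by omega)
    rw [h] at this
    simp at this
  have hk : k ≠ 1 := by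
    rintro rfl
    rw [map_one] at h1
    exact hne t (inv_mul_eq_one.1 h1)
  have hk' : k' ≠ 1 := by
    rintro rfl
    rw [map_one] at h2
    exact hne (t + 1) (inv_mul_eq_one.1 h2)
  have m1 : γ t ∈ V := by
    change fidx ((γ (t + 1))⁻¹ * γ t) = some i
    have : (γ (t + 1))⁻¹ * γ t = ι i k⁻¹ := by
      rw [map_inv, ← h1]; group
    rw [this]
    exact fidx_ι (by simpa using hk)
  have m2 : γ (t + 2) ∉ V := by
    change ¬ fidx ((γ (t + 1))⁻¹ * γ (t + 2)) = some i
    rw [h2, fidx_ι hk']
    simpa using hij.symm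
  constructor
  · intro m hm
    by_contra h
    have h3 := hc _ m1 _ h
    rw [A.dist_comm (γ (t + 1)) (γ m), A.dist_comm (γ t) (γ m), hd t (t + 1) (by omega),
      hd m (t + 1) (by omega), hd m t (by omega)] at h3
    omega
  · intro m hm h
    have h3 := hc _ h _ m2
    rw [A.dist_comm (γ m) (γ (t + 1)), A.dist_comm (γ m) (γ (t + 2)), hd (t + 1) m (by omega),
      hd (t + 1) (t + 2) (by omega), hd (t + 2) m (by omega)] at h3
    omega

/-! ### Malnormality -/

theorem red_cons {x : Σ _ : Bool, K} {l : List (Σ _ : Bool, K)} (hx : x.2 ≠ 1) (hl : Red l)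
    (h : ∀ y ∈ l.head?, x.1 ≠ y.1) : Red (x :: l) := by
  refine ⟨?_, hl.2.cons h⟩
  intro y hy
  rcases List.mem_cons.1 hy with rfl | hy
  · exact hx
  · exact hl.1 y hy

theorem red_tail {x : Σ _ : Bool, K} {l : List (Σ _ : Bool, K)} (hl : Red (x :: l)) :
    x.2 ≠ 1 ∧ Red l ∧ ∀ y ∈ l.head?, x.1 ≠ y.1 := by
  refine ⟨hl.1 x (by simp), ⟨fun y hy => hl.1 y (List.mem_cons_of_mem _ hy), hl.2.tail⟩, ?_⟩
  intro y hy
  have := hl.2
  rw [List.isChain_cons] at this
  exact this.1 y hy

theorem red_snoc {x : Σ _ : Bool, K} {l : List (Σ _ : Bool, K)} (hx : x.2 ≠ 1) (hl : Red l)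
    (h : lastI l ≠ some x.1) : Red (l ++ [x]) := by
  refine ⟨?_, ?_⟩
  · intro y hy
    rcases List.mem_append.1 hy with hy | hy
    · exact hl.1 y hy
    · rw [List.mem_singleton.1 hy]; exact hx
  · rw [List.isChain_append]
    refine ⟨hl.2, by simp, ?_⟩
    intro a ha b hb hab
    apply h
    simp only [List.head?_cons, Option.mem_def, Option.some.injEq] at hb
    rw [lastI, Option.mem_def.1 ha, hb, Option.map_some, hab]

theorem red_replace {i : Bool} {q q' : K} {l : List (Σ _ : Bool, K)}
    (hl : Red (l ++ [⟨i, q⟩])) (hq : q' ≠ 1) : Red (l ++ [⟨i, q'⟩]) := by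
  refine ⟨?_, ?_⟩
  · intro y hy
    rcases List.mem_append.1 hy with hy | hy
    · exact hl.1 y (List.mem_append_left _ hy)
    · rw [List.mem_singleton.1 hy]; exact hq
  · have h := hl.2
    rw [List.isChain_append] at h ⊢
    refine ⟨h.1, by simp, ?_⟩
    intro a ha b hb
    simp only [List.head?_cons, Option.mem_def, Option.some.injEq] at hb
    have := h.2.2 a ha ⟨i, q⟩ (by simp)
    rw [← hb]; exact this

theorem lastI_snoc (l : List (Σ _ : Bool, K)) (x : Σ _ : Bool, K) :
    lastI (l ++ [x]) = some x.1 := by simp [lastI]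

theorem lp_append (l l' : List (Σ _ : Bool, K)) : lp (l ++ l') = lp l * lp l' := by
  simp [lp]

theorem lp_cons (x : Σ _ : Bool, K) (l : List (Σ _ : Bool, K)) :
    lp (x :: l) = ι x.1 x.2 * lp l := by simp [lp]

theorem lp_singleton (x : Σ _ : Bool, K) : lp [x] = ι x.1 x.2 := by simp [lp]

variable (e : K →* K)

/-- The endomorphism of `K * K` which is `e` on both factors. -/
def EE : FP K →* FP K := CoprodI.lift fun i => (ι i).comp e

theorem EE_ι (i : Bool) (k : K) : EE e (ι i k) = ι i (e k) := by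
  rw [EE, CoprodI.lift_of]; rfl

variable {e}

theorem EE_idem (he : ∀ k, e (e k) = e k) (g : FP K) : EE e (EE e g) = EE e g := by
  have : (EE e).comp (EE e) = EE e := by
    apply CoprodI.ext_hom
    intro i
    ext k
    simp only [MonoidHom.comp_apply]
    rw [EE_ι, EE_ι, he]
  exact DFunLike.congr_fun this g

theorem letters (he : ∀ k, e (e k) = e k) (g : FP K) : ∀ x ∈ wd (EE e g), e x.2 = x.2 := by
  induction g using CoprodI.induction_left with
  | one =>
    rw [map_one (EE e), wd_one]
    simp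
  | @mul i m g ih =>
    intro x hx
    rw [map_mul, EE_ι] at hx
    obtain ⟨p, t, -, -, -, hw⟩ := exists_pair (EE e g) i
    have h1 := hw 1
    rw [map_one, one_mul, one_mul] at h1
    rw [hw (e m)] at hx
    rw [h1] at ih
    have hp : e p = p := by
      by_cases hp : p = 1
      · rw [hp, map_one]
      · rw [if_neg hp] at ih
        exact ih ⟨i, p⟩ (by simp)
    have ht : ∀ x ∈ t, e x.2 = x.2 := by
      intro y hy
      apply ih
      split_ifs
      · exact hy
      · exact List.mem_cons_of_mem _ hy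
    split_ifs at hx
    · exact ht x hx
    · rcases List.mem_cons.1 hx with rfl | hx
      · simp only [map_mul, he, hp]
      · exact ht x hx

/-- The subgroup `P * P`, where `P` is the image of `e`. -/
def HH (e : K →* K) : Subgroup (FP K) := (EE e).range

theorem mem_HH (he : ∀ k, e (e k) = e k) {g : FP K} : g ∈ HH e ↔ EE e g = g := by
  constructor
  · rintro ⟨g', rfl⟩
    exact EE_idem he g'
  · intro h
    exact ⟨g, h⟩

theorem letters_of_mem (he : ∀ k, e (e k) = e k) {g : FP K} (hg : g ∈ HH e) :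
    ∀ x ∈ wd g, e x.2 = x.2 := by
  rw [← (mem_HH he).1 hg]
  exact letters he g

/-- `x` has a reduced word starting and ending with a letter of the factor `i`, with a letter
not in `P`. -/
def Bad (e : K →* K) (i : Bool) (x : FP K) : Prop :=
  ∃ l : List (Σ _ : Bool, K), Red l ∧ lp l = x ∧ l.head?.map Sigma.fst = some i ∧
    lastI l = some i ∧ ∃ y ∈ l, e y.2 ≠ y.2

theorem Bad.not_mem (he : ∀ k, e (e k) = e k) {i : Bool} {x : FP K} (h : Bad e i x) :
    x ∉ HH e := by
  obtain ⟨l, h1, rfl, -, -, y, hy, hey⟩ := h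
  intro h
  have := letters_of_mem he h y (by rw [wd_lp h1]; exact hy)
  exact hey this

theorem Bad.conj {i j : Bool} {x : FP K} (h : Bad e i x) (hij : j ≠ i) {m : K} (hm : m ≠ 1) :
    Bad e j (ι j m * x * (ι j m)⁻¹) := by
  obtain ⟨l, h1, rfl, h2, h3, y, hy, hey⟩ := h
  refine ⟨⟨j, m⟩ :: (l ++ [⟨j, m⁻¹⟩]), ?_, ?_, ?_, ?_, y, ?_, hey⟩
  · have r1 : Red (l ++ [(⟨j, m⁻¹⟩ : Σ _ : Bool, K)]) := by
      refine red_snoc (by simpa using hm) h1 ?_
      rw [h3]
      simpa using hij.symm
    refine red_cons hm r1 ?_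
    cases l with
    | nil => simp at h2
    | cons z l =>
      intro a ha
      simp only [List.head?_cons, Option.map_some, Option.some.injEq] at h2
      simp only [List.cons_append, List.head?_cons, Option.mem_def, Option.some.injEq] at ha
      rw [← ha, h2]
      exact hij
  · rw [lp_cons, lp_append, lp_singleton, map_inv, mul_assoc]
  · simp
  · rw [lastI, List.getLast?_cons_of_ne_nil (by simp)]; simp
  · exact List.mem_cons_of_mem _ (List.mem_append_left _ hy)

theorem bad_of_mem (he : ∀ k, e (e k) = e k)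
    (hmal : ∀ k p, e k ≠ k → e p = p → p ≠ 1 → e (k * p * k⁻¹) ≠ k * p * k⁻¹)
    {h : FP K} (hh : h ∈ HH e) (h1 : h ≠ 1) {k : K} (hk : e k ≠ k) (i : Bool) :
    Bad e i (ι i k * h * (ι i k)⁻¹) := by
  obtain ⟨p, t, ht, hti, hg, hw⟩ := exists_pair h i
  have hl := letters_of_mem he hh
  have hw1 := hw 1
  rw [map_one, one_mul, one_mul] at hw1
  rw [hw1] at hl
  have hp : e p = p := by
    by_cases hp : p = 1
    · rw [hp, map_one]
    · rw [if_neg hp] at hl
      exact hl ⟨i, p⟩ (by simp)
  have hte : ∀ x ∈ t, e x.2 = x.2 := by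
    intro y hy
    apply hl
    split_ifs
    · exact hy
    · exact List.mem_cons_of_mem _ hy
  have hkp : e (k * p) ≠ k * p := by
    intro h
    rw [map_mul, hp] at h
    exact hk (mul_right_cancel h)
  have hkp1 : k * p ≠ 1 := by
    intro h
    rw [h, map_one] at hkp
    exact hkp rfl
  have hk1 : k ≠ 1 := by
    rintro rfl
    rw [map_one] at hk
    exact hk rfl
  have hr : Red (⟨i, k * p⟩ :: t : List (Σ _ : Bool, K)) := red_cons hkp1 ht hti
  rcases List.eq_nil_or_concat t with rfl | ⟨t', ⟨j, q⟩, rfl⟩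
  · -- `h` is a single letter
    have hhp : h = ι i p := by rw [hg]; simp [lp]
    have hp1 : p ≠ 1 := by
      rintro rfl
      rw [hhp, map_one] at h1
      exact h1 rfl
    have h2 := hmal k p hk hp hp1
    have h3 : k * p * k⁻¹ ≠ 1 := by
      intro h
      rw [h, map_one] at h2
      exact h2 rfl
    exact ⟨[⟨i, k * p * k⁻¹⟩], ⟨by simpa using h3, by simp⟩, by
      rw [lp_singleton, hhp, map_mul, map_mul, map_inv], by simp, by simp [lastI],
      ⟨i, k * p * k⁻¹⟩, by simp, h2⟩
  · rw [List.concat_eq_append] at hr hte hg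
    have hg' : ι i k * h * (ι i k)⁻¹ =
        ι i (k * p) * (lp t' * ι j q) * (ι i k)⁻¹ := by
      rw [hg, lp_append, lp_singleton, map_mul]
      group
    by_cases hij : j = i
    · subst hij
      have hq : e q = q := hte ⟨j, q⟩ (by simp)
      have hqk : q * k⁻¹ ≠ 1 := by
        intro h
        have : q = k := mul_inv_eq_one.1 h
        rw [this] at hq
        exact hk hq
      refine ⟨⟨j, k * p⟩ :: t' ++ [⟨j, q * k⁻¹⟩], ?_, ?_, by simp, ?_, ⟨j, k * p⟩, by simp, hkp⟩
      · exact red_replace (q := q) (by simpa using hr) hqk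
      · rw [hg', lp_append, lp_cons, lp_singleton, map_mul, map_mul, map_inv]
        group
      · exact lastI_snoc _ _
    · refine ⟨(⟨i, k * p⟩ :: (t' ++ [⟨j, q⟩])) ++ [⟨i, k⁻¹⟩], ?_, ?_, by simp, ?_, ⟨i, k * p⟩,
        by simp, hkp⟩
      · refine red_snoc (by simpa using hk1) hr ?_
        rw [lastI, List.getLast?_cons_of_ne_nil (by simp)]
        simpa using hij
      · rw [hg', lp_append, lp_cons, lp_append, lp_singleton, lp_singleton, map_mul, map_inv]
      · exact lastI_snoc _ _

theorem bad_of_not_mem (he : ∀ k, e (e k) = e k)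
    (hmal : ∀ k p, e k ≠ k → e p = p → p ≠ 1 → e (k * p * k⁻¹) ≠ k * p * k⁻¹) :
    ∀ l : List (Σ _ : Bool, K), Red l → lp l ∉ HH e → ∀ h ∈ HH e, h ≠ 1 →
      ∃ i, l.head?.map Sigma.fst = some i ∧ Bad e i (lp l * h * (lp l)⁻¹) := by
  intro l
  induction l with
  | nil =>
    intro _ h
    exact absurd (HH e).one_mem h
  | cons x l ih =>
    intro hr hl h hh h1
    obtain ⟨hx, hr', hd⟩ := red_tail hr
    have hconj : lp (x :: l) * h * (lp (x :: l))⁻¹ =
        ι x.1 x.2 * (lp l * h * (lp l)⁻¹) * (ι x.1 x.2)⁻¹ := by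
      rw [lp_cons]; group
    rw [hconj]
    refine ⟨x.1, by simp, ?_⟩
    by_cases h2 : lp l ∈ HH e
    · have h3 : e x.2 ≠ x.2 := by
        intro h3
        apply hl
        rw [lp_cons]
        refine (HH e).mul_mem ((mem_HH he).2 ?_) h2
        rw [EE_ι, h3]
      refine bad_of_mem he hmal ((HH e).mul_mem ((HH e).mul_mem h2 hh) ((HH e).inv_mem h2)) ?_ h3 _
      intro h4
      apply h1
      have : h = (lp l)⁻¹ * (lp l * h * (lp l)⁻¹) * lp l := by group
      rw [this, h4]; group
    · obtain ⟨i, hi, hb⟩ := ih hr' h2 h hh h1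
      refine hb.conj ?_ hx
      cases l with
      | nil => simp at hi
      | cons y l =>
        simp only [List.head?_cons, Option.map_some, Option.some.injEq] at hi
        rw [← hi]
        exact hd y (by simp)

/-- `P * P` is malnormal in `K * K` if `P` is malnormal in `K`. -/
theorem malnormal (he : ∀ k, e (e k) = e k)
    (hmal : ∀ k p, e k ≠ k → e p = p → p ≠ 1 → e (k * p * k⁻¹) ≠ k * p * k⁻¹)
    (g : FP K) (hg : g ∉ HH e) (x : FP K) (hx : x ∈ HH e) (h : g⁻¹ * x * g ∈ HH e) : x = 1 := by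
  by_contra hx1
  obtain ⟨i, -, hb⟩ := bad_of_not_mem he hmal (wd g) (wd_red g) (by rwa [lp_wd]) _ h (by
    intro h1
    apply hx1
    have : x = g * (g⁻¹ * x * g) * g⁻¹ := by group
    rw [this, h1]; group)
  apply hb.not_mem he
  rw [lp_wd]
  have : g * (g⁻¹ * x * g) * g⁻¹ = x := by group
  rwa [this]

end

end Pool.Agent.H659R3.MorseLim
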