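import Mathlib

/-! # The group `K = ℤ[1/6] ⋊ ℤ²` of maps `x ↦ 2ⁱ 3ʲ x + c` -/

set_option autoImplicit false

namespace Pool.Agent.H659R3.MorseLim

/-- A group `K` with a retraction `ρ` onto a malnormal subgroup isomorphic to `ℤ²`, generated by
`ℤ²` and an element `a` of the kernel of `ρ` commuting with its conjugates under `ℤ²`. -/
structure KData (K : Type) [Group K] where
  σ : Multiplicative (ℤ × ℤ) →* K
  ρ : K →* Multiplicative (ℤ × ℤ)
  a : K
  ρσ : ∀ v, ρ (σ v) = v
  ρa : ρ a = 1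
  a_ne : a ≠ 1
  gen : Subgroup.closure {a, σ (.ofAdd (1, 0)), σ (.ofAdd (0, 1))} = ⊤
  mal : ∀ k p, σ (ρ k) ≠ k → σ (ρ p) = p → p ≠ 1 → σ (ρ (k * p * k⁻¹)) ≠ k * p * k⁻¹
  comm : ∀ v, a * (σ v * a * (σ v)⁻¹) = (σ v * a * (σ v)⁻¹) * a

/-- The map `t ↦ 2ˣ 3ʸ t + c`. -/
@[ext] structure Aff where
  c : ℚ
  x : ℤ
  y : ℤ

namespace Aff

/-- The multiplier `2ˣ 3ʸ`. -/
def u (x y : ℤ) : ℚ := 2 ^ x * 3 ^ y

theorem u_add (x y x' y' : ℤ) : u (x + x') (y + y') = u x y * u x' y' := by
  rw [u, u, u, zpow_add₀ (by norm_num), zpow_add₀ (by norm_num)]; ring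

theorem u_zero : u 0 0 = 1 := by simp [u]

theorem u_ne (x y : ℤ) : u x y ≠ 0 := by
  rw [u]; positivity

theorem u_neg (x y : ℤ) : u (-x) (-y) * u x y = 1 := by
  rw [← u_add]; simp [u_zero]

instance : Mul Aff := ⟨fun k l => ⟨k.c + u k.x k.y * l.c, k.x + l.x, k.y + l.y⟩⟩
instance : One Aff := ⟨⟨0, 0, 0⟩⟩
instance : Inv Aff := ⟨fun k => ⟨-(u (-k.x) (-k.y) * k.c), -k.x, -k.y⟩⟩

@[simp] theorem mul_c (k l : Aff) : (k * l).c = k.c + u k.x k.y * l.c := rfl
@[simp] theorem mul_x (k l : Aff) : (k * l).x = k.x + l.x := rfl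
@[simp] theorem mul_y (k l : Aff) : (k * l).y = k.y + l.y := rfl
@[simp] theorem one_c : (1 : Aff).c = 0 := rfl
@[simp] theorem one_x : (1 : Aff).x = 0 := rfl
@[simp] theorem one_y : (1 : Aff).y = 0 := rfl
@[simp] theorem inv_c (k : Aff) : (k⁻¹).c = -(u (-k.x) (-k.y) * k.c) := rfl
@[simp] theorem inv_x (k : Aff) : (k⁻¹).x = -k.x := rfl
@[simp] theorem inv_y (k : Aff) : (k⁻¹).y = -k.y := rfl

instance : Group Aff := Group.ofLeftAxioms
  (by
    intro k l m
    ext
    · simp only [mul_c, mul_x, mul_y, u_add]; ring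
    · simp only [mul_x]; ring
    · simp only [mul_y]; ring)
  (by
    intro k
    ext <;> simp [u_zero])
  (by
    intro k
    ext <;> simp)

/-- The inclusion of `ℤ²`. -/
def σ' : Multiplicative (ℤ × ℤ) →* Aff where
  toFun v := ⟨0, v.toAdd.1, v.toAdd.2⟩
  map_one' := rfl
  map_mul' v w := by ext <;> simp

/-- The projection to `ℤ²`. -/
def ρ' : Aff →* Multiplicative (ℤ × ℤ) where
  toFun k := .ofAdd (k.x, k.y)
  map_one' := rfl
  map_mul' _ _ := rfl

theorem u_eq_one {x y : ℤ} (h : u x y = 1) : x = 0 ∧ y = 0 := by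
  have h2 : padicValRat 2 (u x y) = x := by
    have : Fact (Nat.Prime 2) := ⟨Nat.prime_two⟩
    rw [u, padicValRat.mul (by positivity) (by positivity), padicValRat.zpow, padicValRat.zpow]
    have e1 : padicValRat 2 2 = 1 := by
      have := padicValRat.self (p := 2) (by norm_num)
      exact_mod_cast this
    have e2 : padicValRat 2 3 = 0 := by
      have : padicValRat 2 ((3 : ℕ) : ℚ) = ((padicValNat 2 3 : ℕ) : ℤ) := padicValRat.of_nat
      rw [padicValNat.eq_zero_of_not_dvd (by norm_num)] at this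
      exact_mod_cast this
    rw [e1, e2]; ring
  have h3 : padicValRat 3 (u x y) = y := by
    have : Fact (Nat.Prime 3) := ⟨Nat.prime_three⟩
    rw [u, padicValRat.mul (by positivity) (by positivity), padicValRat.zpow, padicValRat.zpow]
    have e1 : padicValRat 3 3 = 1 := by
      have := padicValRat.self (p := 3) (by norm_num)
      exact_mod_cast this
    have e2 : padicValRat 3 2 = 0 := by
      have : padicValRat 3 ((2 : ℕ) : ℚ) = ((padicValNat 3 2 : ℕ) : ℤ) := padicValRat.of_nat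
      rw [padicValNat.eq_zero_of_not_dvd (by norm_num)] at this
      exact_mod_cast this
    rw [e1, e2]; ring
  rw [h] at h2 h3
  simp at h2 h3
  exact ⟨h2.symm, h3.symm⟩

/-- The three generators. -/
def gens : Set Aff := {⟨1, 0, 0⟩, σ' (.ofAdd (1, 0)), σ' (.ofAdd (0, 1))}

/-- The group `K`. -/
abbrev KK : Type := Subgroup.closure gens

theorem σ'_mem (v : Multiplicative (ℤ × ℤ)) : σ' v ∈ Subgroup.closure gens := by
  have e : v = (.ofAdd (1, 0) : Multiplicative (ℤ × ℤ)) ^ v.toAdd.1 *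
      (.ofAdd (0, 1) : Multiplicative (ℤ × ℤ)) ^ v.toAdd.2 := by
    apply Multiplicative.toAdd.injective
    rw [toAdd_mul, toAdd_zpow, toAdd_zpow]
    ext <;> simp
  rw [e, map_mul, map_zpow, map_zpow]
  exact mul_mem (zpow_mem (Subgroup.subset_closure (by simp [gens])) _)
    (zpow_mem (Subgroup.subset_closure (by simp [gens])) _)

/-- The inclusion of `ℤ²` in `K`. -/
def σK : Multiplicative (ℤ × ℤ) →* KK := σ'.codRestrict _ σ'_mem

/-- The element `a : t ↦ t + 1`. -/
def aK : KK := ⟨⟨1, 0, 0⟩, Subgroup.subset_closure (Set.mem_insert _ _)⟩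

/-- The data for the group `K`. -/
def dataKK : KData KK where
  σ := σK
  ρ := ρ'.comp (Subgroup.subtype _)
  a := aK
  ρσ _ := rfl
  ρa := rfl
  a_ne h := by
    have := congrArg (fun k : KK => k.1.c) h
    exact one_ne_zero (α := ℚ) this
  gen := by
    have := Subgroup.closure_closure_coe_preimage (k := gens)
    rw [← this]
    congr 1
    ext k
    constructor
    · rintro (h | h | h)
      · exact Or.inl (congrArg Subtype.val h)
      · exact Or.inr (Or.inl (congrArg Subtype.val h))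
      · exact Or.inr (Or.inr (congrArg Subtype.val h))
    · rintro (h | h | h)
      · exact Or.inl (Subtype.ext h)
      · exact Or.inr (Or.inl (Subtype.ext h))
      · exact Or.inr (Or.inr (Subtype.ext h))
  mal k p hk hp hp1 h := by
    have h1 := congrArg (fun k : KK => k.1.c) h
    have hpc : p.1.c = 0 := (congrArg (fun k : KK => k.1.c) hp).symm
    have hc : k.1.c ≠ 0 := by
      intro hc
      apply hk
      apply Subtype.ext
      ext
      · exact hc.symm
      · rfl
      · rfl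
    have h2 : (0:ℚ) = k.1.c - u p.1.x p.1.y * k.1.c := by
      have e : (0:ℚ) = (k.1 * p.1 * k.1⁻¹).c := h1
      rw [e]
      simp only [mul_c, mul_x, mul_y, inv_c, u_add, hpc]
      have := u_neg k.1.x k.1.y
      linear_combination (-(u p.1.x p.1.y) * k.1.c) * this
    have h3 : u p.1.x p.1.y = 1 := by
      have : k.1.c * (1 - u p.1.x p.1.y) = 0 := by linear_combination -h2
      rcases mul_eq_zero.1 this with h | h
      · exact absurd h hc
      · linarith
    obtain ⟨hx, hy⟩ := u_eq_one h3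
    apply hp1
    apply Subtype.ext
    ext
    · exact hpc
    · exact hx
    · exact hy
  comm v := by
    apply Subtype.ext
    ext
    · simp [σK, σ', u_zero, aK]; ring
    · simp [σK, σ', aK]
    · simp [σK, σ', aK]

end Aff

end Pool.Agent.H659R3.MorseLim
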