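import Pool.Agent.H659R3.MorseLim.Defs

/-! # A criterion for a malnormal subgroup not to be hyperbolically embedded -/

set_option autoImplicit false

namespace Pool.Agent.H659R3.MorseLim

variable {G : Type} [Group G] {X : Set G} {H : Subgroup G}

/-- Chains of length `n` for a relation. -/
inductive Chain {G : Type} (R : G → G → Prop) : ℕ → G → G → Prop
  | refl (g : G) : Chain R 0 g g
  | step {n : ℕ} {g g' g'' : G} : R g g' → Chain R n g' g'' → Chain R (n + 1) g g''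

namespace Chain

set_option linter.unusedSectionVars false

variable {R R' : G → G → Prop}

theorem trans {m n : ℕ} {g g' g'' : G} (h : Chain R m g g') (h' : Chain R n g' g'') :
    Chain R (m + n) g g'' := by
  induction h with
  | refl g => simpa using h'
  | step h1 _ ih =>
    have := Chain.step h1 (ih h')
    rwa [Nat.add_right_comm] at this

theorem mono (hR : ∀ a b, R a b → R' a b) {n : ℕ} {g g' : G} (h : Chain R n g g') :
    Chain R' n g g' := by
  induction h with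
  | refl g => exact Chain.refl g
  | step h1 _ ih => exact Chain.step (hR _ _ h1) ih

theorem symm (hR : ∀ a b, R a b → R b a) {n : ℕ} {g g' : G} (h : Chain R n g g') :
    Chain R n g' g := by
  induction h with
  | refl g => exact Chain.refl g
  | step h1 _ ih => exact ih.trans (Chain.step (hR _ _ h1) (Chain.refl _))

theorem map (z : G) (hR : ∀ a b, R a b → R' (z * a) (z * b)) {n : ℕ} {g g' : G}
    (h : Chain R n g g') : Chain R' n (z * g) (z * g') := by
  induction h with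
  | refl g => exact Chain.refl _
  | step h1 _ ih => exact Chain.step (hR _ _ h1) ih

theorem edist_le {Γ : SimpleGraph G} (hR : ∀ a b, R a b → a = b ∨ Γ.Adj a b) {n : ℕ} {g g' : G}
    (h : Chain R n g g') : Γ.edist g g' ≤ n := by
  induction h with
  | refl g => simp
  | @step n g g' g'' h1 _ ih =>
    refine (Γ.edist_triangle (v := g')).trans ?_
    have : Γ.edist g g' ≤ 1 := by
      rcases hR _ _ h1 with rfl | h
      · simp
      · exact (SimpleGraph.edist_eq_one_iff_adj.2 h).le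
    calc Γ.edist g g' + Γ.edist g' g'' ≤ 1 + n := add_le_add this ih
      _ = ((n + 1 : ℕ) : ℕ∞) := by push_cast; ring

end Chain

/-- The steps of paths in `Γ(G, X ⊔ H)` all of whose edges labelled by `H` lie in cosets `w H`
with `w ∈ F`. -/
def StepF (X : Set G) (H : Subgroup G) (F : Set G) (g g' : G) : Prop :=
  (g⁻¹ * g' ∈ X ∨ g'⁻¹ * g ∈ X) ∨ (g⁻¹ * g' ∈ H ∧ ∃ w ∈ F, w⁻¹ * g ∈ H)

theorem StepF.symm {F : Set G} {g g' : G} (h : StepF X H F g g') : StepF X H F g' g := by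
  rcases h with h | ⟨h1, w, hw, h2⟩
  · exact Or.inl h.symm
  · refine Or.inr ⟨by simpa using H.inv_mem h1, w, hw, ?_⟩
    have := H.mul_mem h2 h1
    simpa [mul_assoc] using this

theorem StepF.mono {F F' : Set G} (hF : F ⊆ F') {g g' : G} (h : StepF X H F g g') :
    StepF X H F' g g' := by
  rcases h with h | ⟨h1, w, hw, h2⟩
  · exact Or.inl h
  · exact Or.inr ⟨h1, w, hF hw, h2⟩

/-- Translating a path by `z`: if no `z w` (`w ∈ F`) is in `H` then the translate is a path of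
the relative graph. -/
theorem StepF.translate {F : Set G} {z : G} (hz : ∀ w ∈ F, z * w ∉ H) {g g' : G}
    (h : StepF X H F g g') : z * g = z * g' ∨ (relGraph X H).Adj (z * g) (z * g') := by
  by_cases he : g = g'
  · exact Or.inl (by rw [he])
  right
  refine ⟨fun h' => he (mul_left_cancel h'), ?_⟩
  have e1 : (z * g)⁻¹ * (z * g') = g⁻¹ * g' := by group
  have e2 : (z * g')⁻¹ * (z * g) = g'⁻¹ * g := by group
  rw [e1, e2]
  rcases h with h | ⟨h1, w, hw, h2⟩
  · exact Or.inl h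
  · refine Or.inr ⟨h1, fun h3 => hz w hw ?_⟩
    have h4 := H.mul_mem h3 (H.inv_mem h2)
    have e : z * g * (w⁻¹ * g)⁻¹ = z * w := by group
    rwa [e] at h4

theorem exists_chain (hX : Subgroup.closure (X ∪ (H : Set G)) = ⊤) (g : G) :
    ∃ n, Chain (StepF X H Set.univ) n 1 g := by
  have hg : g ∈ Subgroup.closure (X ∪ (H : Set G)) := by rw [hX]; trivial
  induction hg using Subgroup.closure_induction with
  | mem x hx =>
    refine ⟨1, Chain.step ?_ (Chain.refl _)⟩
    rcases hx with hx | hx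
    · left; left; simpa using hx
    · right; exact ⟨by simpa using hx, 1, trivial, by simp⟩
  | one => exact ⟨0, Chain.refl _⟩
  | mul x y _ _ hx hy =>
    obtain ⟨m, hm⟩ := hx
    obtain ⟨n, hn⟩ := hy
    refine ⟨m + n, hm.trans ?_⟩
    have := hn.map x (R' := StepF X H Set.univ) (by
      rintro a b (h | ⟨h, -⟩)
      · left
        have e1 : (x * a)⁻¹ * (x * b) = a⁻¹ * b := by group
        have e2 : (x * b)⁻¹ * (x * a) = b⁻¹ * a := by group
        rw [e1, e2]; exact h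
      · right
        have e1 : (x * a)⁻¹ * (x * b) = a⁻¹ * b := by group
        rw [e1]; exact ⟨h, x * a, trivial, by simp⟩)
    simpa using this
  | inv x _ hx =>
    obtain ⟨m, hm⟩ := hx
    refine ⟨m, ?_⟩
    have := (hm.symm (fun a b h => h.symm)).map x⁻¹ (R' := StepF X H Set.univ) (by
      rintro a b (h | ⟨h, -⟩)
      · left
        have e1 : (x⁻¹ * a)⁻¹ * (x⁻¹ * b) = a⁻¹ * b := by group
        have e2 : (x⁻¹ * b)⁻¹ * (x⁻¹ * a) = b⁻¹ * a := by group
        rw [e1, e2]; exact h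
      · right
        have e1 : (x⁻¹ * a)⁻¹ * (x⁻¹ * b) = a⁻¹ * b := by group
        rw [e1]; exact ⟨h, x⁻¹ * a, trivial, by simp⟩)
    simpa using this

theorem split_chain {k : ℕ} {g c : G} (h : Chain (StepF X H Set.univ) k g c) :
    (∃ F : Set G, F.Finite ∧ (∀ w ∈ F, w ∉ H) ∧ Chain (StepF X H F) k g c) ∨
      ∃ k' < k, ∃ g' ∈ H, Chain (StepF X H Set.univ) k' g' c := by
  induction h with
  | refl g => exact Or.inl ⟨∅, Set.finite_empty, by simp, Chain.refl g⟩
  | @step k g g' c h1 h2 ih =>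
    rcases ih with ⟨F, hF, hFH, hch⟩ | ⟨k', hk', g'', hg'', hch⟩
    · rcases h1 with h1 | ⟨h1, -⟩
      · exact Or.inl ⟨F, hF, hFH, Chain.step (Or.inl h1) hch⟩
      · by_cases hg : g ∈ H
        · refine Or.inr ⟨k, Nat.lt_succ_self k, g', ?_, h2⟩
          have := H.mul_mem hg h1
          simpa using this
        · refine Or.inl ⟨insert g F, hF.insert g, ?_, ?_⟩
          · intro w hw
            rcases hw with rfl | hw
            · exact hg
            · exact hFH w hw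
          · refine Chain.step (Or.inr ⟨h1, g, Set.mem_insert _ _, by simp⟩) ?_
            exact hch.mono fun a b h => h.mono (Set.subset_insert _ _)
    · exact Or.inr ⟨k', hk'.trans (Nat.lt_succ_self k), g'', hg'', hch⟩

/-- There is a chain from `1` to an element of `H a H` all of whose edges labelled by `H` are
in cosets `w H` where `w` ranges over a finite set disjoint from `H`. -/
theorem exists_good_chain (hX : Subgroup.closure (X ∪ (H : Set G)) = ⊤) (a : G) :
    ∃ (n : ℕ) (c : G) (F : Set G), (∃ h ∈ H, ∃ h' ∈ H, c = h * a * h') ∧ F.Finite ∧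
      (∀ w ∈ F, w ∉ H) ∧ Chain (StepF X H F) n 1 c := by
  classical
  have hex : ∃ n, ∃ c, (∃ h ∈ H, ∃ h' ∈ H, c = h * a * h') ∧
      Chain (StepF X H Set.univ) n 1 c := by
    obtain ⟨n, hn⟩ := exists_chain hX a
    exact ⟨n, a, ⟨1, H.one_mem, 1, H.one_mem, by simp⟩, hn⟩
  obtain ⟨c, hc, hch⟩ := Nat.find_spec hex
  rcases split_chain hch with ⟨F, hF, hFH, h⟩ | ⟨k', hk', g', hg', h⟩
  · exact ⟨_, c, F, hc, hF, hFH, h⟩
  · exfalso
    refine Nat.find_min hex hk' ⟨g'⁻¹ * c, ?_, ?_⟩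
    · obtain ⟨u, hu, u', hu', rfl⟩ := hc
      exact ⟨g'⁻¹ * u, H.mul_mem (H.inv_mem hg') hu, u', hu', by group⟩
    · have := h.map g'⁻¹ (R' := StepF X H Set.univ) (by
        rintro a b (h | ⟨h, -⟩)
        · left
          have e1 : (g'⁻¹ * a)⁻¹ * (g'⁻¹ * b) = a⁻¹ * b := by group
          have e2 : (g'⁻¹ * b)⁻¹ * (g'⁻¹ * a) = b⁻¹ * a := by group
          rw [e1, e2]; exact h
        · right
          have e1 : (g'⁻¹ * a)⁻¹ * (g'⁻¹ * b) = a⁻¹ * b := by group
          rw [e1]; exact ⟨h, g'⁻¹ * a, trivial, by simp⟩)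
      simpa using this

/-- A malnormal subgroup `H` is not hyperbolically embedded if some `a ∉ H` commutes with
`p a p⁻¹` for infinitely many `p ∈ H`. -/
theorem not_hyperbolicallyEmbedded (hmal : ∀ g : G, g ∉ H → ∀ x ∈ H, g⁻¹ * x * g ∈ H → x = 1)
    {a : G} (ha : a ∉ H) {P : Set G} (hP : ∀ p ∈ P, p ∈ H) (hinf : P.Infinite)
    (hcomm : ∀ p ∈ P, a * (p * a * p⁻¹) = (p * a * p⁻¹) * a) : ¬ HyperbolicallyEmbedded H := by
  rintro ⟨X, hX, -, hfin⟩
  obtain ⟨n, c, F, ⟨h, hh, h', hh', hc⟩, hF, hFH, hch⟩ := exists_good_chain hX a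
  have hcH : c ∉ H := by
    intro hcH
    apply ha
    have := H.mul_mem (H.mul_mem (H.inv_mem hh) hcH) (H.inv_mem hh')
    rw [hc] at this
    simpa [mul_assoc] using this
  -- the exceptional sets are finite
  have hsub : ∀ u v : G, u ∉ H → ∀ y ∈ H, ∀ y' ∈ H, u * y * v ∈ H → u * y' * v ∈ H →
      y = y' := by
    intro u v hu y hy y' hy' h1 h2
    have h3 : (u⁻¹)⁻¹ * (y * y'⁻¹) * u⁻¹ ∈ H := by
      have := H.mul_mem h1 (H.inv_mem h2)
      have e : u * y * v * (u * y' * v)⁻¹ = (u⁻¹)⁻¹ * (y * y'⁻¹) * u⁻¹ := by group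
      rwa [e] at this
    have := hmal u⁻¹ (fun h => hu (by simpa using H.inv_mem h)) (y * y'⁻¹)
      (H.mul_mem hy (H.inv_mem hy')) h3
    exact (mul_inv_eq_one.1 this)
  have hy1 : ∀ p ∈ P, h'⁻¹ * p * h⁻¹ ∈ H := fun p hp =>
    H.mul_mem (H.mul_mem (H.inv_mem hh') (hP p hp)) (H.inv_mem hh)
  have hy4 : ∀ p ∈ P, h'⁻¹ * p⁻¹ * h⁻¹ ∈ H := fun p hp =>
    H.mul_mem (H.mul_mem (H.inv_mem hh') (H.inv_mem (hP p hp))) (H.inv_mem hh)
  have fin1 : ∀ v : G, {p ∈ P | c * (h'⁻¹ * p * h⁻¹) * v ∈ H}.Finite := by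
    intro v
    apply Set.Subsingleton.finite
    rintro p ⟨hp, h1⟩ q ⟨hq, h2⟩
    have := hsub c v hcH _ (hy1 p hp) _ (hy1 q hq) h1 h2
    simpa using this
  have fin4 : ∀ v : G, {p ∈ P | c * (h'⁻¹ * p⁻¹ * h⁻¹) * v ∈ H}.Finite := by
    intro v
    apply Set.Subsingleton.finite
    rintro p ⟨hp, h1⟩ q ⟨hq, h2⟩
    have := hsub c v hcH _ (hy4 p hp) _ (hy4 q hq) h1 h2
    simpa using this
  set Bad : Set G := (⋃ w ∈ F, {p ∈ P | c * (h'⁻¹ * p * h⁻¹) * w ∈ H}) ∪
    {p ∈ P | c * (h'⁻¹ * p * h⁻¹) * c ∈ H} ∪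
    (⋃ w ∈ F, {p ∈ P | c * (h'⁻¹ * p⁻¹ * h⁻¹) * w ∈ H}) with hBad
  have hBadfin : Bad.Finite :=
    ((hF.biUnion fun w _ => fin1 w).union (fin1 c)).union (hF.biUnion fun w _ => fin4 w)
  have hgood : (P \ Bad).Infinite := hinf.sdiff hBadfin
  have himg : ((fun p => h * p * h⁻¹) '' (P \ Bad)).Infinite := by
    refine hgood.image fun p _ q _ hpq => ?_
    simpa using hpq
  refine himg ((hfin 1 H.one_mem (n + 1 + n + 1 + n + 1 + n)).subset ?_)
  rintro _ ⟨p, ⟨hp, hpB⟩, rfl⟩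
  have hpH := hP p hp
  have hxH : h * p * h⁻¹ ∈ H := H.mul_mem (H.mul_mem hh hpH) (H.inv_mem hh)
  refine ⟨hxH, ?_⟩
  simp only [hBad, Set.mem_union, Set.mem_iUnion, Set.mem_ofPred_eq, not_or, not_exists,
    not_and] at hpB
  obtain ⟨⟨hb1, hb2⟩, hb3⟩ := hpB
  -- the relative path
  let R : G → G → Prop := fun u v => u = v ∨ (relGraph X H).Adj u v
  have hRs : ∀ u v, R u v → R v u := by
    rintro u v (h | h)
    · exact Or.inl h.symm
    · exact Or.inr h.symm
  have hW : ∀ z, (∀ w ∈ F, z * w ∉ H) → Chain R n z (z * c) := by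
    intro z hz
    have := hch.map z (R' := R) fun u v huv => huv.translate hz
    simpa using this
  have hE : ∀ u y, u ∉ H → y ∈ H → Chain R 1 u (u * y) := by
    intro u y hu hy
    refine Chain.step ?_ (Chain.refl _)
    by_cases h : u = u * y
    · exact Or.inl h
    · refine Or.inr ⟨h, Or.inr ⟨by simpa using hy, hu⟩⟩
  have p1 := hW 1 (by simpa using hFH)
  rw [one_mul] at p1
  have p2 := hE c _ hcH (hy1 p hp)
  have p3 := hW (c * (h'⁻¹ * p * h⁻¹)) (fun w hw => hb1 w hw hp)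
  have p4 := hE (c * (h'⁻¹ * p * h⁻¹) * c) (h'⁻¹ * p⁻¹ * h') (hb2 hp)
    (H.mul_mem (H.mul_mem (H.inv_mem hh') (H.inv_mem hpH)) hh')
  have p5 := (hW (h * p * h⁻¹ * c * (h'⁻¹ * p⁻¹ * h⁻¹)) (fun w hw h1 => hb3 w hw hp (by
    have := H.mul_mem (H.inv_mem hxH) h1
    have e : (h * p * h⁻¹)⁻¹ * (h * p * h⁻¹ * c * (h'⁻¹ * p⁻¹ * h⁻¹) * w) =
      c * (h'⁻¹ * p⁻¹ * h⁻¹) * w := by group
    rwa [e] at this))).symm hRs
  have hxc : h * p * h⁻¹ * c ∉ H := fun h1 => hcH (by
    have := H.mul_mem (H.inv_mem hxH) h1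
    simpa [mul_assoc] using this)
  have p6 := (hE (h * p * h⁻¹ * c) (h'⁻¹ * p⁻¹ * h⁻¹) hxc (hy4 p hp)).symm hRs
  have p7 := (hW (h * p * h⁻¹) (fun w hw h1 => hFH w hw (by
    have := H.mul_mem (H.inv_mem hxH) h1
    simpa [mul_assoc] using this))).symm hRs
  have hrel : c * (h'⁻¹ * p * h⁻¹) * c * (h'⁻¹ * p⁻¹ * h') =
      h * p * h⁻¹ * c * (h'⁻¹ * p⁻¹ * h⁻¹) * c := by
    have := hcomm p hp
    have e1 : c * (h'⁻¹ * p * h⁻¹) * c * (h'⁻¹ * p⁻¹ * h') = h * (a * (p * a * p⁻¹)) * h' := by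
      rw [hc]; group
    have e2 : h * p * h⁻¹ * c * (h'⁻¹ * p⁻¹ * h⁻¹) * c = h * ((p * a * p⁻¹) * a) * h' := by
      rw [hc]; group
    rw [e1, e2, this]
  rw [hrel] at p4
  have total := ((((((p1.trans p2).trans p3).trans p4).trans p5).trans p6).trans p7)
  exact total.edist_le fun u v huv => huv

end Pool.Agent.H659R3.MorseLim
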