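import Pool.Agent.H659R3.MorseLim.Boundary
import Pool.Agent.H659R3.MorseLim.NotHE
import Pool.Agent.H659R3.MorseLim.GroupK
import Pool.Agent.H659R3.MorseLim.FreeProd
import Pool.Agent.H659R3.MorseLim.Flat

/-! # The example `P * P ≤ K * K` -/

set_option autoImplicit false

namespace Pool.Agent.H659R3.MorseLim

open Monoid Monoid.CoprodI

variable {K : Type} [Group K] (D : KData K)

namespace KData

/-- The endomorphism `σ ∘ ρ` of `K`. -/
def e : K →* K := D.σ.comp D.ρ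

theorem e_idem (k : K) : D.e (D.e k) = D.e k := by
  simp only [e, MonoidHom.comp_apply, D.ρσ]

theorem e_σ (v : Multiplicative (ℤ × ℤ)) : D.e (D.σ v) = D.σ v := by
  simp only [e, MonoidHom.comp_apply, D.ρσ]

theorem e_a : D.e D.a = 1 := by
  simp only [e, MonoidHom.comp_apply, D.ρa, map_one]

theorem σ_inj : Function.Injective D.σ := fun v w h => by
  have := congrArg D.ρ h
  simpa [D.ρσ] using this

theorem e_mal (k p : K) (h1 : D.e k ≠ k) (h2 : D.e p = p) (h3 : p ≠ 1) :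
    D.e (k * p * k⁻¹) ≠ k * p * k⁻¹ := D.mal k p h1 h2 h3

/-- `P * P`. -/
abbrev H : Subgroup (FP K) := HH D.e

/-- The generators of `K`. -/
def gK : Set K := {D.a, D.σ (.ofAdd (1, 0)), D.σ (.ofAdd (0, 1))}

theorem gK_finite : D.gK.Finite := by
  simp [gK]

/-- The generating set of `K * K`. -/
def A : FinGen (FP K) where
  S := ⋃ i : Bool, (ι i) '' D.gK
  finite := Set.finite_iUnion fun i => D.gK_finite.image _
  gen := by
    rw [eq_top_iff]
    intro g _
    induction g using CoprodI.induction_on with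
    | one => exact one_mem _
    | of i m =>
      have hm : m ∈ Subgroup.closure D.gK := by rw [gK, D.gen]; trivial
      have h1 : ι i m ∈ (Subgroup.closure D.gK).map (ι i) := ⟨m, hm, rfl⟩
      rw [MonoidHom.map_closure] at h1
      exact Subgroup.closure_mono (Set.subset_iUnion (fun i : Bool => (ι i) '' D.gK) i) h1
    | mul x y hx hy => exact mul_mem (hx trivial) (hy trivial)

/-- The retraction onto `P * P`. -/
def r : FP K →* D.H := (EE D.e).rangeRestrict

theorem r_coe (g : FP K) : (D.r g : FP K) = EE D.e g := rfl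

theorem r_retr (h : D.H) : D.r h = h :=
  Subtype.ext ((mem_HH D.e_idem).1 h.2)

theorem mem_σ (i : Bool) (v : Multiplicative (ℤ × ℤ)) : ι i (D.σ v) ∈ D.H := by
  rw [mem_HH D.e_idem, EE_ι, D.e_σ]

/-- The generating set of `P * P`. -/
def B : FinGen D.H where
  S := {h | ∃ i : Bool, (h : FP K) = ι i (D.σ (.ofAdd (1, 0))) ∨
    (h : FP K) = ι i (D.σ (.ofAdd (0, 1)))}
  finite := by
    have : {h : D.H | ∃ i : Bool, (h : FP K) = ι i (D.σ (.ofAdd (1, 0))) ∨
        (h : FP K) = ι i (D.σ (.ofAdd (0, 1)))} ⊆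
        Subtype.val ⁻¹' (⋃ i : Bool, {ι i (D.σ (.ofAdd (1, 0))), ι i (D.σ (.ofAdd (0, 1)))}) := by
      rintro h ⟨i, hi⟩
      exact Set.mem_iUnion.2 ⟨i, hi⟩
    refine Set.Finite.subset (Set.Finite.preimage Subtype.val_injective.injOn ?_) this
    exact Set.finite_iUnion fun i => by simp
  gen := by
    rw [eq_top_iff]
    intro h _
    have h1 : (h : FP K) ∈ Subgroup.closure D.A.S := by rw [D.A.gen]; trivial
    have h2 : D.r h ∈ (Subgroup.closure D.A.S).map D.r := ⟨_, h1, rfl⟩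
    rw [MonoidHom.map_closure, D.r_retr] at h2
    refine (Subgroup.closure_le _).2 ?_ h2
    rintro _ ⟨x, hx, rfl⟩
    obtain ⟨i, hi⟩ := Set.mem_iUnion.1 hx
    obtain ⟨k, hk, rfl⟩ := hi
    rcases hk with rfl | rfl | rfl
    · have : D.r (ι i D.a) = 1 := Subtype.ext (by rw [D.r_coe, EE_ι, D.e_a, map_one]; rfl)
      rw [this]
      exact one_mem _
    · exact Subgroup.subset_closure ⟨i, Or.inl (by rw [D.r_coe, EE_ι, D.e_σ])⟩
    · exact Subgroup.subset_closure ⟨i, Or.inr (by rw [D.r_coe, EE_ι, D.e_σ])⟩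

theorem mem_A {x : FP K} (hx : x ∈ D.A.S) : ∃ i, x = ι i D.a ∨ x = ι i (D.σ (.ofAdd (1, 0))) ∨
    x = ι i (D.σ (.ofAdd (0, 1))) := by
  obtain ⟨i, hi⟩ := Set.mem_iUnion.1 hx
  obtain ⟨k, hk, rfl⟩ := hi
  rcases hk with rfl | rfl | rfl
  · exact ⟨i, Or.inl rfl⟩
  · exact ⟨i, Or.inr (Or.inl rfl)⟩
  · exact ⟨i, Or.inr (Or.inr rfl)⟩

theorem gen_A1 (i : Bool) : ι i (D.σ (.ofAdd (1, 0))) ∈ D.A.S :=
  Set.mem_iUnion.2 ⟨i, _, Or.inr (Or.inl rfl), rfl⟩

theorem gen_A2 (i : Bool) : ι i (D.σ (.ofAdd (0, 1))) ∈ D.A.S :=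
  Set.mem_iUnion.2 ⟨i, _, Or.inr (Or.inr rfl), rfl⟩

theorem factorGen : FactorGen D.A := by
  intro x hx
  obtain ⟨i, h | h | h⟩ := D.mem_A hx
  exacts [⟨i, _, h⟩, ⟨i, _, h⟩, ⟨i, _, h⟩]

theorem len_r (g : FP K) : D.B.len (D.r g) ≤ D.A.len g := by
  refine D.A.len_map_le D.B D.r ?_ g
  intro s hs
  obtain ⟨i, rfl | rfl | rfl⟩ := D.mem_A hs
  · right
    exact Subtype.ext (by rw [D.r_coe, EE_ι, D.e_a, map_one]; rfl)
  · exact Or.inl ⟨i, Or.inl (by rw [D.r_coe, EE_ι, D.e_σ])⟩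
  · exact Or.inl ⟨i, Or.inr (by rw [D.r_coe, EE_ι, D.e_σ])⟩

theorem len_i (h : D.H) : D.A.len (h : FP K) ≤ D.B.len h := by
  refine D.B.len_map_le D.A D.H.subtype ?_ h
  rintro s ⟨i, h | h⟩
  · left
    rw [Subgroup.subtype_apply, h]
    exact D.gen_A1 i
  · left
    rw [Subgroup.subtype_apply, h]
    exact D.gen_A2 i

/-! ### Lengths in the flats -/

theorem len_zpow (g : FP K) (hg : g ∈ D.A.S) (n : ℤ) : (D.A.len (g ^ n) : ℤ) ≤ |n| := by
  have hnat : ∀ n : ℕ, D.A.len (g ^ n) ≤ n := by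
    intro n
    induction n with
    | zero => simp
    | succ n ih =>
      rw [pow_succ]
      have h1 := D.A.len_mul_le (g ^ n) g
      have h2 := D.A.len_gen (Or.inl hg : g ∈ D.A.S ∨ g⁻¹ ∈ D.A.S)
      omega
  rcases Int.eq_nat_or_neg n with ⟨m, rfl | rfl⟩
  · rw [zpow_natCast]
    have := hnat m
    rw [Nat.abs_cast]
    exact_mod_cast this
  · rw [zpow_neg, D.A.len_inv, zpow_natCast]
    have := hnat m
    rw [abs_neg, Nat.abs_cast]
    exact_mod_cast this

/-- The projection of `K * K` to the group `ℤ²` in the factor `i`. -/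
def φ (i : Bool) : FP K →* Multiplicative (ℤ × ℤ) :=
  CoprodI.lift fun j => if j = i then D.ρ else 1

theorem φ_same (i : Bool) (k : K) : D.φ i (ι i k) = D.ρ k := by
  rw [φ, CoprodI.lift_of, if_pos rfl]

theorem φ_ne {i j : Bool} (h : j ≠ i) (k : K) : D.φ i (ι j k) = 1 := by
  rw [φ, CoprodI.lift_of, if_neg h]; rfl

theorem len_flat (i : Bool) (x y : ℤ) :
    (D.A.len (ι i (D.σ (.ofAdd (x, y)))) : ℤ) = |x| + |y| := by
  apply le_antisymm
  · have e : (Multiplicative.ofAdd (x, y) : Multiplicative (ℤ × ℤ)) =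
        (.ofAdd (1, 0) : Multiplicative (ℤ × ℤ)) ^ x *
          (.ofAdd (0, 1) : Multiplicative (ℤ × ℤ)) ^ y := by
      apply Multiplicative.toAdd.injective
      rw [toAdd_mul, toAdd_zpow, toAdd_zpow]
      ext <;> simp
    rw [e, map_mul, map_mul, map_zpow, map_zpow, map_zpow, map_zpow]
    have h1 := D.len_zpow _ (D.gen_A1 i) x
    have h2 := D.len_zpow _ (D.gen_A2 i) y
    have h3 := D.A.len_mul_le (ι i (D.σ (.ofAdd (1, 0))) ^ x) (ι i (D.σ (.ofAdd (0, 1))) ^ y)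
    omega
  · have := D.A.abs_hom_le_len (D.φ i) (by
      intro s hs
      obtain ⟨j, hj⟩ := D.mem_A hs
      by_cases hji : j = i
      · subst hji
        rcases hj with rfl | rfl | rfl <;> rw [D.φ_same]
        · rw [D.ρa]; simp
        · rw [D.ρσ]; simp
        · rw [D.ρσ]; simp
      · rcases hj with rfl | rfl | rfl <;> rw [D.φ_ne hji] <;> simp)
      (ι i (D.σ (.ofAdd (x, y))))
    rw [D.φ_same, D.ρσ] at this
    exact this

/-- The points of a flat. -/
def pt (u : D.H) (i : Bool) (x y : ℤ) : D.H := u * ⟨ι i (D.σ (.ofAdd (x, y))), D.mem_σ i _⟩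

theorem pt_coe (u : D.H) (i : Bool) (x y : ℤ) :
    (D.pt u i x y : FP K) = u * ι i (D.σ (.ofAdd (x, y))) := rfl

theorem pt_zero (u : D.H) (i : Bool) : D.pt u i 0 0 = u := by
  apply Subtype.ext
  rw [pt_coe]
  have : (Multiplicative.ofAdd ((0 : ℤ), (0 : ℤ)) : Multiplicative (ℤ × ℤ)) = 1 := rfl
  rw [this, map_one, map_one, mul_one]

theorem dist_eq (h k : D.H) : D.A.dist (h : FP K) k = D.B.dist h k := by
  have h1 : ∀ h : D.H, D.A.len (h : FP K) = D.B.len h := fun h =>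
    le_antisymm (D.len_i h) (by simpa [D.r_retr h] using D.len_r h)
  have := h1 (h⁻¹ * k)
  simpa [FinGen.dist] using this

theorem dist_pt (u : D.H) (i : Bool) (x y x' y' : ℤ) :
    (D.B.dist (D.pt u i x y) (D.pt u i x' y') : ℤ) = |x - x'| + |y - y'| := by
  rw [← D.dist_eq, pt_coe, pt_coe, FinGen.dist]
  have e1 : ((u : FP K) * ι i (D.σ (.ofAdd (x, y))))⁻¹ * (u * ι i (D.σ (.ofAdd (x', y')))) =
      ι i (D.σ ((.ofAdd (x, y))⁻¹ * .ofAdd (x', y'))) := by
    rw [map_mul, map_mul, map_inv, map_inv]; group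
  have e2 : ((Multiplicative.ofAdd (x, y))⁻¹ * .ofAdd (x', y') : Multiplicative (ℤ × ℤ)) =
      .ofAdd (x' - x, y' - y) := by
    apply Multiplicative.toAdd.injective
    ext
    · simp; ring
    · simp; ring
  rw [e1, e2, D.len_flat, abs_sub_comm x' x, abs_sub_comm y' y]

/-! ### Cut points of Morse rays -/

theorem step {γ : ℕ → D.H} (hγ : IsGeod D.B Set.univ γ) (t : ℕ) :
    ∃ (i : Bool) (v : Multiplicative (ℤ × ℤ)),
      ((γ t : FP K))⁻¹ * (γ (t + 1) : FP K) = ι i (D.σ v) := by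
  have h1 := hγ.nat (Set.mem_univ t) (Set.mem_univ (t + 1)) (by omega)
  have h2 : D.B.len ((γ t)⁻¹ * γ (t + 1)) = 1 := by
    rw [FinGen.dist] at h1
    omega
  rcases D.B.gen_of_len h2 with ⟨i, h | h⟩ | ⟨i, h | h⟩
  · exact ⟨i, _, h⟩
  · exact ⟨i, _, h⟩
  · refine ⟨i, (.ofAdd (1, 0))⁻¹, ?_⟩
    rw [map_inv, map_inv, ← h]
    simp
  · refine ⟨i, (.ofAdd (0, 1))⁻¹, ?_⟩
    rw [map_inv, map_inv, ← h]
    simp

theorem exists_last (P : ℕ → Prop) (h0 : P 0) :
    ∀ n, ∃ m ≤ n, P m ∧ ∀ t, m < t → t ≤ n → ¬ P t := by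
  intro n
  induction n with
  | zero => exact ⟨0, le_rfl, h0, fun t h1 h2 => by omega⟩
  | succ n ih =>
    by_cases h : P (n + 1)
    · exact ⟨n + 1, le_rfl, h, fun t h1 h2 => by omega⟩
    · obtain ⟨m, hm, hP, hm'⟩ := ih
      refine ⟨m, by omega, hP, fun t h1 h2 => ?_⟩
      rcases Nat.eq_or_lt_of_le h2 with rfl | h3
      · exact h
      · exact hm' t h1 (by omega)

theorem geod_coe {γ : ℕ → D.H} (hγ : IsGeod D.B Set.univ γ) :
    IsGeod D.A Set.univ (fun n => (γ n : FP K)) := by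
  intro m hm n hn
  rw [D.dist_eq]
  exact hγ m hm n hn

theorem cut (N : Gauge) : ∃ b : ℕ, ∀ γ : ℕ → D.H, γ 0 = 1 → IsGeod D.B Set.univ γ →
    IsMorse D.B N Set.univ γ → CutGap D.A b (fun n => (γ n : FP K)) := by
  refine ⟨⌈2 * N 6 1⌉₊, fun γ _ hg hM n => ?_⟩
  obtain ⟨b, hb⟩ : ∃ b, b = ⌈2 * N 6 1⌉₊ := ⟨_, rfl⟩
  rw [← hb]
  choose c v hcv using D.step hg
  have hgA := D.geod_coe hg
  -- the switching times
  set P : ℕ → Prop := fun t => t = 0 ∨ ∃ s, t = s + 1 ∧ c s ≠ c (s + 1) with hP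
  have hsw : ∀ s, c s ≠ c (s + 1) →
      (∀ m < s + 1, (γ m : FP K) ∈ {w | fidx (((γ (s + 1) : FP K))⁻¹ * w) = some (c s)}) ∧
      ∀ m, s + 1 < m → (γ m : FP K) ∉ {w | fidx (((γ (s + 1) : FP K))⁻¹ * w) = some (c s)} :=
    fun s hs => cut_of_switch D.factorGen hgA hs (hcv s) (hcv (s + 1))
  by_contra hno
  -- no switching time in `[n, n + b]`
  have hnoP : ∀ t, n ≤ t → t ≤ n + b → ¬ P t := by
    rintro t h1 h2 (rfl | ⟨s, rfl, hs⟩)
    · exact hno ⟨0, h1, h2, ∅, fun w hw => absurd hw (Set.notMem_empty w),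
        fun m hm => by omega, fun m _ hm => hm⟩
    · exact hno ⟨s + 1, h1, h2, _, isCut D.factorGen _ (c s), (hsw s hs).1, (hsw s hs).2⟩
  obtain ⟨n₀, hn₀, hPn₀, hlast⟩ := exists_last P (Or.inl rfl) n
  have hno' : ∀ t, n₀ < t → t ≤ n + b → ¬ P t := by
    intro t h1 h2
    rcases le_total t n with h | h
    · exact hlast t h1 h
    · exact hnoP t h h2
  have hconst : ∀ k, n₀ + k ≤ n + b → c (n₀ + k) = c n₀ := by
    intro k
    induction k with
    | zero => intro _; rfl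
    | succ k ih =>
      intro hk
      have h1 := hno' (n₀ + (k + 1)) (by omega) hk
      rw [← ih (by omega)]
      by_contra h
      exact h1 (Or.inr ⟨n₀ + k, rfl, fun h' => h h'.symm⟩)
  have hflat : ∀ k, n₀ + k ≤ n + b + 1 → ∃ x y : ℤ, γ (n₀ + k) = D.pt (γ n₀) (c n₀) x y := by
    intro k
    induction k with
    | zero => intro _; exact ⟨0, 0, (D.pt_zero _ _).symm⟩
    | succ k ih =>
      intro hk
      obtain ⟨x, y, hxy⟩ := ih (by omega)
      have h1 := hcv (n₀ + k)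
      rw [hconst k (by omega)] at h1
      refine ⟨x + (v (n₀ + k)).toAdd.1, y + (v (n₀ + k)).toAdd.2, Subtype.ext ?_⟩
      have h2 : (γ (n₀ + (k + 1)) : FP K) = γ (n₀ + k) * ι (c n₀) (D.σ (v (n₀ + k))) := by
        rw [← h1, mul_inv_cancel_left]; rfl
      rw [h2, hxy, pt_coe, pt_coe, mul_assoc, ← map_mul, ← map_mul]
      rfl
  obtain ⟨l, hl⟩ : ∃ l, n₀ + l = n + b + 1 := ⟨n + b + 1 - n₀, by omega⟩
  obtain ⟨x, y, hxy⟩ := hflat l (by omega)
  -- the corners are far from the past of the ray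
  have hpast : ∀ m < n₀, l ≤ D.B.dist (D.pt (γ n₀) (c n₀) 0 l) (γ m) ∧
      l ≤ D.B.dist (D.pt (γ n₀) (c n₀) l 0) (γ m) := by
    intro m hm
    rcases hPn₀ with rfl | ⟨s, rfl, hs⟩
    · omega
    have h1 := (hsw s hs).1 m hm
    have key : ∀ x y : ℤ, (Multiplicative.ofAdd (x, y) : Multiplicative (ℤ × ℤ)) ≠ 1 →
        |x| + |y| = l → l ≤ D.B.dist (D.pt (γ (s + 1)) (c (s + 1)) x y) (γ m) := by
      intro x y hne hxyl
      have h2 : (D.pt (γ (s + 1)) (c (s + 1)) x y : FP K) ∉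
          {w | fidx (((γ (s + 1) : FP K))⁻¹ * w) = some (c s)} := by
        change ¬ fidx (((γ (s + 1) : FP K))⁻¹ * (D.pt (γ (s + 1)) (c (s + 1)) x y : FP K)) =
          some (c s)
        rw [pt_coe, inv_mul_cancel_left, fidx_ι]
        · simpa using hs.symm
        · intro h
          exact hne (D.σ_inj (by rw [h, map_one]))
      have h3 := isCut D.factorGen (γ (s + 1) : FP K) (c s) _ h1 _ h2
      have h4 := D.dist_pt (γ (s + 1)) (c (s + 1)) 0 0 x y
      rw [D.pt_zero, zero_sub, zero_sub, abs_neg, abs_neg, hxyl] at h4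
      rw [D.dist_eq, D.dist_eq, D.dist_eq] at h3
      rw [D.B.dist_comm (D.pt _ _ _ _)]
      omega
    have hlpos : (l : ℤ) ≠ 0 := by omega
    constructor
    · refine key 0 l (fun h => hlpos ?_) (by simp)
      exact congrArg (fun v : Multiplicative (ℤ × ℤ) => v.toAdd.2) h
    · refine key l 0 (fun h => hlpos ?_) (by simp)
      exact congrArg (fun v : Multiplicative (ℤ × ℤ) => v.toAdd.1) h
  have hb1 := flat_bound (D.dist_pt (γ n₀) (c n₀)) hg hM (n₀ := n₀) (l := l)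
    (D.pt_zero _ _).symm hxy hpast
  have hb2 := Nat.le_ceil (2 * N 6 1)
  rw [← hb] at hb2
  have hb3 : (l : ℝ) ≤ b := hb1.trans hb2
  have hb4 : l ≤ b := by exact_mod_cast hb3
  omega

theorem retractHyp : RetractHyp D.A D.B D.r :=
  ⟨D.r_retr, D.len_r, D.len_i, D.cut⟩

/-! ### A Morse ray of `P * P` -/

/-- The parity of a natural number. -/
def par (n : ℕ) : Bool := n % 2 = 0

/-- The ray alternating between the two factors. -/
def ray : ℕ → D.H
  | 0 => 1
  | n + 1 => ray n * ⟨ι (par n) (D.σ (.ofAdd (1, 0))), D.mem_σ _ _⟩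

theorem ray_succ (n : ℕ) : (D.ray (n + 1) : FP K) = D.ray n * ι (par n) (D.σ (.ofAdd (1, 0))) :=
  rfl

/-- The total degree. -/
def ψ : FP K →* Multiplicative (ℤ × ℤ) := CoprodI.lift fun _ => D.ρ

theorem ψ_ray (n : ℕ) : D.ψ (D.ray n : FP K) = .ofAdd ((n : ℤ), 0) := by
  induction n with
  | zero =>
    change D.ψ 1 = _
    rw [map_one]; rfl
  | succ n ih =>
    rw [ray_succ, map_mul, ih]
    have : D.ψ (ι (par n) (D.σ (.ofAdd (1, 0)))) = .ofAdd (1, 0) := by
      rw [ψ, CoprodI.lift_of, D.ρσ]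
    rw [this]
    apply Multiplicative.toAdd.injective
    ext <;> simp

theorem ray_geod : IsGeod D.A Set.univ (fun n => (D.ray n : FP K)) := by
  apply isGeod_of_nat
  intro m _ n hn hmn
  apply le_antisymm
  · obtain ⟨k, rfl⟩ := Nat.exists_eq_add_of_le hmn
    rw [Nat.add_sub_cancel_left]
    clear hmn hn
    induction k with
    | zero => simp
    | succ k ih =>
      have t1 := D.A.dist_triangle (D.ray m : FP K) (D.ray (m + k)) (D.ray (m + (k + 1)))
      have t2 : D.A.dist (D.ray (m + k) : FP K) (D.ray (m + (k + 1))) ≤ 1 := by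
        have := D.ray_succ (m + k)
        rw [← add_assoc, this]
        exact D.A.dist_mul_gen _ _ (Or.inl (D.gen_A1 _))
      omega
  · have := D.A.abs_hom_le_len D.ψ (by
      intro s hs
      obtain ⟨j, rfl | rfl | rfl⟩ := D.mem_A hs <;> rw [ψ, CoprodI.lift_of]
      · rw [D.ρa]; simp
      · rw [D.ρσ]; simp
      · rw [D.ρσ]; simp) ((D.ray m : FP K)⁻¹ * D.ray n)
    rw [map_mul, map_inv, D.ψ_ray, D.ψ_ray] at this
    simp only [toAdd_mul, toAdd_inv, toAdd_ofAdd, Prod.fst_add, Prod.fst_neg, Prod.snd_add,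
      Prod.snd_neg, neg_zero, add_zero, abs_zero] at this
    have h1 := le_abs_self (-(m : ℤ) + n)
    simp only [FinGen.dist]
    omega

theorem par_ne (s : ℕ) : par s ≠ par (s + 1) := by
  unfold par
  rcases Nat.mod_two_eq_zero_or_one s with h | h
  · have : (s + 1) % 2 = 1 := by omega
    simp [h, this]
  · have : (s + 1) % 2 = 0 := by omega
    simp [h, this]

theorem ray_cut : CutGap D.A 0 (fun n => (D.ray n : FP K)) := by
  intro n
  refine ⟨n, le_rfl, le_rfl, ?_⟩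
  rcases n with _ | s
  · exact ⟨∅, fun w hw => absurd hw (Set.notMem_empty w), fun m hm => by omega,
      fun m _ hm => hm⟩
  · have h := cut_of_switch D.factorGen D.ray_geod (t := s) (par_ne s)
      (k := D.σ (.ofAdd (1, 0))) (k' := D.σ (.ofAdd (1, 0))) (by
        simp only [ray_succ, inv_mul_cancel_left]) (by
        have := D.ray_succ (s + 1)
        simp only [this, inv_mul_cancel_left])
    exact ⟨_, isCut D.factorGen _ (par s), h.1, h.2⟩

/-- A Morse ray in `P * P`. -/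
noncomputable def morseRay : MorseRay D.B :=
  ⟨D.ray, rfl, D.retractHyp.geod_incl.1 D.ray_geod, cutGauge 0,
    D.retractHyp.morse_restrict (isMorse_of_cutGap (fun _ _ _ _ => trivial) D.ray_geod D.ray_cut)⟩

/-! ### The conclusions -/

theorem H_mal (g : FP K) (hg : g ∉ D.H) (x : FP K) (hx : x ∈ D.H) (h : g⁻¹ * x * g ∈ D.H) :
    x = 1 := malnormal D.e_idem D.e_mal g hg x hx h

theorem almostMalnormal : AlmostMalnormal D.H := by
  intro g hg
  refine (Set.finite_singleton (1 : FP K)).subset ?_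
  rintro x ⟨h1, h2⟩
  exact D.H_mal g hg x h1 h2

theorem not_he : ¬ HyperbolicallyEmbedded D.H := by
  refine not_hyperbolicallyEmbedded D.H_mal (a := ι true D.a) ?_
    (P := Set.range fun v : Multiplicative (ℤ × ℤ) => ι true (D.σ v)) ?_ ?_ ?_
  · intro h
    rw [mem_HH D.e_idem, EE_ι, D.e_a] at h
    exact D.a_ne (CoprodI.of_injective (M := fun _ : Bool => K) true h).symm
  · rintro _ ⟨v, rfl⟩
    exact D.mem_σ _ _
  · apply Set.infinite_range_of_injective
    intro v w h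
    exact D.σ_inj (CoprodI.of_injective (M := fun _ : Bool => K) true h)
  · rintro _ ⟨v, rfl⟩
    have := congrArg (ι true) (D.comm v)
    simpa only [map_mul, map_inv] using this

end KData

end Pool.Agent.H659R3.MorseLim
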