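import Mathlib

/-! # Finitely generated groups with their word metric

`FinGen G` is a finite generating set of `G`, `A.len g` the word length of `g`, `A.dist g h` the
word distance `|g⁻¹ h|` (a natural number). -/

set_option autoImplicit false

namespace Pool.Agent.H659R3.MorseLim

/-- A finite generating set of the group `G`. -/
structure FinGen (G : Type) [Group G] where
  /-- the generating set -/
  S : Set G
  finite : S.Finite
  gen : Subgroup.closure S = ⊤

namespace FinGen

variable {G : Type} [Group G] (A : FinGen G)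

/-- The word length of `g`: the least length of a product of generators and inverses of
generators which is equal to `g`. -/
noncomputable def len (g : G) : ℕ :=
  sInf {n | ∃ l : List G, l.length = n ∧ (∀ x ∈ l, x ∈ A.S ∨ x⁻¹ ∈ A.S) ∧ l.prod = g}

/-- The word distance `d(g, h) = |g⁻¹ h|`. -/
noncomputable def dist (g h : G) : ℕ := A.len (g⁻¹ * h)

/-- Words in the generators and their inverses. -/
def IsW (l : List G) : Prop := ∀ x ∈ l, x ∈ A.S ∨ x⁻¹ ∈ A.S

theorem exists_word (g : G) : ∃ l : List G, A.IsW l ∧ l.prod = g := by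
  have : g ∈ Subgroup.closure A.S := by rw [A.gen]; trivial
  rw [← Subgroup.mem_toSubmonoid, Subgroup.closure_toSubmonoid] at this
  obtain ⟨l, h1, h2⟩ := Submonoid.exists_list_of_mem_closure this
  exact ⟨l, fun x hx => h1 x hx, h2⟩

theorem len_spec (g : G) : ∃ l : List G, l.length = A.len g ∧ A.IsW l ∧ l.prod = g := by
  have hne : {n | ∃ l : List G, l.length = n ∧ (∀ x ∈ l, x ∈ A.S ∨ x⁻¹ ∈ A.S) ∧
      l.prod = g}.Nonempty := by
    obtain ⟨l, h1, h2⟩ := A.exists_word g
    exact ⟨l.length, l, rfl, h1, h2⟩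
  exact Nat.sInf_mem hne

theorem len_le {l : List G} (hl : A.IsW l) : A.len l.prod ≤ l.length :=
  Nat.sInf_le ⟨l, rfl, hl, rfl⟩

theorem len_le' {l : List G} {g : G} (hl : A.IsW l) (h : l.prod = g) : A.len g ≤ l.length := by
  rw [← h]; exact A.len_le hl

@[simp] theorem len_one : A.len 1 = 0 := by
  have := A.len_le' (l := []) (g := 1) (by simp [IsW]) rfl
  simpa using this

theorem len_mul_le (g h : G) : A.len (g * h) ≤ A.len g + A.len h := by
  obtain ⟨l, h1, h2, h3⟩ := A.len_spec g
  obtain ⟨l', h1', h2', h3'⟩ := A.len_spec h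
  rw [← h1, ← h1', ← List.length_append]
  refine A.len_le' ?_ (by rw [List.prod_append, h3, h3'])
  intro x hx
  rcases List.mem_append.1 hx with hx | hx
  · exact h2 x hx
  · exact h2' x hx

theorem len_inv_le (g : G) : A.len g⁻¹ ≤ A.len g := by
  obtain ⟨l, h1, h2, h3⟩ := A.len_spec g
  rw [← h1]
  have : ((l.map fun x => x⁻¹).reverse).length = l.length := by simp
  rw [← this]
  refine A.len_le' ?_ (by rw [← h3, List.prod_inv_reverse])
  intro x hx
  simp only [List.mem_reverse, List.mem_map] at hx
  obtain ⟨y, hy, rfl⟩ := hx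
  rcases h2 y hy with h | h
  · right; simpa using h
  · left; exact h

theorem len_inv (g : G) : A.len g⁻¹ = A.len g :=
  le_antisymm (A.len_inv_le g) (by simpa using A.len_inv_le g⁻¹)

theorem eq_one_of_len {g : G} (h : A.len g = 0) : g = 1 := by
  obtain ⟨l, h1, h2, h3⟩ := A.len_spec g
  rw [h] at h1
  rw [List.length_eq_zero_iff] at h1
  rw [← h3, h1]; rfl

theorem len_gen {s : G} (hs : s ∈ A.S ∨ s⁻¹ ∈ A.S) : A.len s ≤ 1 := by
  have := A.len_le' (l := [s]) (g := s) (by intro x hx; simp at hx; rw [hx]; exact hs) (by simp)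
  simpa using this

theorem gen_of_len {g : G} (h : A.len g = 1) : g ∈ A.S ∨ g⁻¹ ∈ A.S := by
  obtain ⟨l, h1, h2, h3⟩ := A.len_spec g
  rw [h, List.length_eq_one_iff] at h1
  obtain ⟨a, rfl⟩ := h1
  have : a = g := by simpa using h3
  rw [← this]
  exact h2 a (by simp)

@[simp] theorem dist_self (g : G) : A.dist g g = 0 := by simp [dist]

theorem dist_comm (g h : G) : A.dist g h = A.dist h g := by
  rw [dist, dist, ← A.len_inv]; simp

theorem dist_triangle (g h k : G) : A.dist g k ≤ A.dist g h + A.dist h k := by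
  have : g⁻¹ * k = (g⁻¹ * h) * (h⁻¹ * k) := by group
  rw [dist, this]
  exact A.len_mul_le _ _

theorem eq_of_dist {g h : G} (hd : A.dist g h = 0) : g = h := by
  have := A.eq_one_of_len hd
  exact (inv_mul_eq_one.1 this)

theorem dist_mul_left (k g h : G) : A.dist (k * g) (k * h) = A.dist g h := by
  rw [dist, dist]; congr 1; group

theorem dist_one_left (g : G) : A.dist 1 g = A.len g := by simp [dist]

theorem dist_mul_gen (g s : G) (hs : s ∈ A.S ∨ s⁻¹ ∈ A.S) : A.dist g (g * s) ≤ 1 := by
  rw [dist]
  have : g⁻¹ * (g * s) = s := by group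
  rw [this]; exact A.len_gen hs

/-- A homomorphism sending generators to generators or to `1` does not increase lengths. -/
theorem len_map_le {G' : Type} [Group G'] (A' : FinGen G') (φ : G →* G')
    (h : ∀ s ∈ A.S, φ s ∈ A'.S ∨ φ s = 1) (g : G) : A'.len (φ g) ≤ A.len g := by
  obtain ⟨l, h1, h2, h3⟩ := A.len_spec g
  rw [← h1, ← h3]
  clear h1 h3
  induction l with
  | nil => simp
  | cons s l ih =>
    rw [List.prod_cons, map_mul, List.length_cons]
    have hs : A'.len (φ s) ≤ 1 := by
      rcases h2 s (by simp) with hs | hs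
      · rcases h s hs with h' | h'
        · exact A'.len_gen (Or.inl h')
        · rw [h']; simp
      · rw [← A'.len_inv, ← map_inv]
        rcases h _ hs with h' | h'
        · exact A'.len_gen (Or.inl h')
        · rw [h']; simp
    have := A'.len_mul_le (φ s) (φ l.prod)
    have := ih (fun x hx => h2 x (List.mem_cons_of_mem _ hx))
    omega

/-- A `ℤ`-valued homomorphism taking values in `[-1, 1]` on generators is bounded by the
length. -/
theorem abs_hom_le_len (φ : G →* Multiplicative (ℤ × ℤ))
    (h : ∀ s ∈ A.S, |(φ s).toAdd.1| + |(φ s).toAdd.2| ≤ 1) (g : G) :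
    |(φ g).toAdd.1| + |(φ g).toAdd.2| ≤ A.len g := by
  obtain ⟨l, h1, h2, h3⟩ := A.len_spec g
  rw [← h1, ← h3]
  clear h1 h3
  induction l with
  | nil => simp
  | cons s l ih =>
    rw [List.prod_cons, map_mul, List.length_cons]
    have hs : |(φ s).toAdd.1| + |(φ s).toAdd.2| ≤ 1 := by
      rcases h2 s (by simp) with hs | hs
      · exact h s hs
      · have := h _ hs
        rw [map_inv] at this
        simpa using this
    have ih' := ih (fun x hx => h2 x (List.mem_cons_of_mem _ hx))
    have e1 : (φ s * φ l.prod).toAdd.1 = (φ s).toAdd.1 + (φ l.prod).toAdd.1 := rfl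
    have e2 : (φ s * φ l.prod).toAdd.2 = (φ s).toAdd.2 + (φ l.prod).toAdd.2 := rfl
    rw [e1, e2]
    have a1 := abs_add_le (φ s).toAdd.1 (φ l.prod).toAdd.1
    have a2 := abs_add_le (φ s).toAdd.2 (φ l.prod).toAdd.2
    push_cast
    linarith

end FinGen

end Pool.Agent.H659R3.MorseLim
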